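import Mathlib.Analysis.Fourier.ZMod
import Pool.Agent.Lib.MP_88e1a1_al.Cert

set_option autoImplicit false

open Finset ZMod

namespace Pool.Agent.Lib.MP_88e1a1_al

variable {n : ℕ} [NeZero n]

/-- The linear map on phase vectors attached to the monomial pair. -/
def foxW (h : ZMod n) (X : ZMod n → ℝ) (i : ZMod n) : ℝ :=
  X (i - 1) - X (i - 2) - X (i - 6) + 2 * X (i - 8) - X (i - 9)
    - X (h * i) + X (h * (i - 1)) + X (h * (i - 8)) - X (h * (i - 9))

/-- Discrete Fourier transform. -/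
noncomputable def fou (X : ZMod n → ℝ) (k : ZMod n) : ℂ :=
  ∑ j : ZMod n, stdAddChar (-(j * k)) * (X j : ℂ)

theorem fou_shift (X : ZMod n → ℝ) (k a : ZMod n) :
    ∑ i : ZMod n, stdAddChar (-(i * k)) * (X (i - a) : ℂ) =
      stdAddChar (-(a * k)) * fou X k := by
  unfold fou
  rw [Finset.mul_sum]
  refine Fintype.sum_equiv (Equiv.subRight a) _ _ (fun i => ?_)
  rw [← mul_assoc, ← AddChar.map_add_eq_mul]
  simp only [Equiv.subRight_apply]
  congr 2
  ring

theorem fou_half (X : ZMod n → ℝ) (k a h : ZMod n) (hh : 2 * h = 1) :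
    ∑ i : ZMod n, stdAddChar (-(i * k)) * (X (h * (i - a)) : ℂ) =
      stdAddChar (-(a * k)) * fou X (2 * k) := by
  unfold fou
  rw [Finset.mul_sum]
  let e : ZMod n ≃ ZMod n :=
    { toFun := fun i => h * (i - a)
      invFun := fun j => 2 * j + a
      left_inv := fun i => by
        show 2 * (h * (i - a)) + a = i
        linear_combination (i - a) * hh
      right_inv := fun j => by
        show h * (2 * j + a - a) = j
        linear_combination j * hh }
  refine Fintype.sum_equiv e _ _ (fun i => ?_)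
  rw [← mul_assoc, ← AddChar.map_add_eq_mul]
  have : e i = h * (i - a) := rfl
  rw [this]
  congr 2
  linear_combination k * (i - a) * hh

theorem char_pow (k : ZMod n) (a : ℕ) :
    (stdAddChar (-((a : ZMod n) * k)) : ℂ) = stdAddChar (-k) ^ a := by
  rw [← AddChar.map_nsmul_eq_pow]
  congr 1
  simp

theorem fou_relation (X : ZMod n → ℝ) (h : ZMod n) (hh : 2 * h = 1)
    (hW : ∀ i, foxW h X i = 0) (k : ZMod n) :
    let z : ℂ := stdAddChar (-k)
    (1 - z) ^ 2 * z * (1 + z) * (1 + z ^ 2 + z ^ 4 - z ^ 5) * fou X k =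
      (1 - z) * (1 - z ^ 8) * fou X (2 * k) := by
  intro z
  have h0 : ∑ i : ZMod n, stdAddChar (-(i * k)) * (foxW h X i : ℂ) = 0 := by
    simp [hW]
  have e1 := fou_shift X k 1
  have e2 := fou_shift X k 2
  have e6 := fou_shift X k 6
  have e8 := fou_shift X k 8
  have e9 := fou_shift X k 9
  have d0 := fou_half X k 0 h hh
  have d1 := fou_half X k 1 h hh
  have d8 := fou_half X k 8 h hh
  have d9 := fou_half X k 9 h hh
  have c1 : (stdAddChar (-(1 * k)) : ℂ) = z ^ 1 := by rw [one_mul, pow_one]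
  have c2 : (stdAddChar (-(2 * k)) : ℂ) = z ^ 2 := by simpa using char_pow k 2
  have c6 : (stdAddChar (-(6 * k)) : ℂ) = z ^ 6 := by simpa using char_pow k 6
  have c8 : (stdAddChar (-(8 * k)) : ℂ) = z ^ 8 := by simpa using char_pow k 8
  have c9 : (stdAddChar (-(9 * k)) : ℂ) = z ^ 9 := by simpa using char_pow k 9
  have c0 : (stdAddChar (-(0 * k)) : ℂ) = 1 := by simp
  rw [c1] at e1 d1
  rw [c2] at e2
  rw [c6] at e6
  rw [c8] at e8 d8
  rw [c9] at e9 d9
  rw [c0] at d0
  simp only [sub_zero] at d0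
  have h1 : ∑ i : ZMod n, stdAddChar (-(i * k)) * (foxW h X i : ℂ) =
      (∑ i : ZMod n, stdAddChar (-(i * k)) * (X (i - 1) : ℂ))
      - (∑ i : ZMod n, stdAddChar (-(i * k)) * (X (i - 2) : ℂ))
      - (∑ i : ZMod n, stdAddChar (-(i * k)) * (X (i - 6) : ℂ))
      + 2 * (∑ i : ZMod n, stdAddChar (-(i * k)) * (X (i - 8) : ℂ))
      - (∑ i : ZMod n, stdAddChar (-(i * k)) * (X (i - 9) : ℂ))
      - (∑ i : ZMod n, stdAddChar (-(i * k)) * (X (h * i) : ℂ))
      + (∑ i : ZMod n, stdAddChar (-(i * k)) * (X (h * (i - 1)) : ℂ))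
      + (∑ i : ZMod n, stdAddChar (-(i * k)) * (X (h * (i - 8)) : ℂ))
      - (∑ i : ZMod n, stdAddChar (-(i * k)) * (X (h * (i - 9)) : ℂ)) := by
    rw [Finset.mul_sum]
    simp only [← Finset.sum_sub_distrib, ← Finset.sum_add_distrib]
    refine Finset.sum_congr rfl (fun i _ => ?_)
    unfold foxW
    push_cast
    ring
  rw [h1, e1, e2, e6, e8, e9, d0, d1, d8, d9] at h0
  linear_combination h0


/-- The squared modulus of `1 + z^2 + z^4 - z^5` on the unit circle. -/
theorem normSq_kappa (z : ℂ) (hz : Complex.normSq z = 1) :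
    Complex.normSq (1 + z ^ 2 + z ^ 4 - z ^ 5) =
      2 - 6 * z.re - 8 * z.re ^ 2 + 32 * z.re ^ 3 + 16 * z.re ^ 4 - 32 * z.re ^ 5 := by
  have h1 : z * (starRingEnd ℂ) z = 1 := by
    rw [Complex.mul_conj, hz]; simp
  have h2 : z + (starRingEnd ℂ) z = ((2 * z.re : ℝ) : ℂ) := Complex.add_conj z
  set w : ℂ := (starRingEnd ℂ) z with hw
  have hwz : w = ((2 * z.re : ℝ) : ℂ) - z := by rw [← h2]; ring
  apply Complex.ofReal_injective
  rw [← Complex.mul_conj]
  have h3 : (starRingEnd ℂ) (1 + z ^ 2 + z ^ 4 - z ^ 5) = 1 + w ^ 2 + w ^ 4 - w ^ 5 := by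
    simp [hw]
  rw [h3]
  push_cast
  set c : ℂ := (z.re : ℂ) with hc
  have h4 : z + w = 2 * c := by rw [h2]; push_cast; rfl
  have hcc : c = (z + w) / 2 := by rw [h4]; ring
  -- power sums
  have p1 : z + w = 2 * c := h4
  have p2 : z ^ 2 + w ^ 2 = 4 * c ^ 2 - 2 := by
    linear_combination (z + w + 2 * c) * h4 - 2 * h1
  have p3 : z ^ 3 + w ^ 3 = 8 * c ^ 3 - 6 * c := by
    linear_combination (z + w) * p2 - (z + w) * h1 + (4 * c ^ 2 - 3) * p1
  have p4 : z ^ 4 + w ^ 4 = 16 * c ^ 4 - 16 * c ^ 2 + 2 := by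
    linear_combination (z ^ 2 + w ^ 2 + 4 * c ^ 2 - 2) * p2 - 2 * (z * w + 1) * h1
  have p5 : z ^ 5 + w ^ 5 = 32 * c ^ 5 - 40 * c ^ 3 + 10 * c := by
    linear_combination (z + w) * p4 + (16 * c ^ 4 - 16 * c ^ 2 + 2) * p1
      - (z ^ 3 + w ^ 3) * h1 - p3
  linear_combination 2 * p2 + p4 - p5 - p3 - p1
    + ((z * w + 1) + ((z * w) ^ 3 + (z * w) ^ 2 + z * w + 1)
      + ((z * w) ^ 4 + (z * w) ^ 3 + (z * w) ^ 2 + z * w + 1)
      + (z * w + 1) * (z ^ 2 + w ^ 2) - (z * w + 1) * (z ^ 3 + w ^ 3)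
      - ((z * w) ^ 3 + (z * w) ^ 2 + z * w + 1) * (z + w)) * h1

/-- Main positivity argument: a zero-sum vector killed by `foxW` is zero. -/
theorem foxW_injective (hn : Nat.Coprime n 30) (h : ZMod n) (hh : 2 * h = 1)
    (X : ZMod n → ℝ) (hsum : ∑ i, X i = 0) (hW : ∀ i, foxW h X i = 0) : X = 0 := by
  classical
  -- notation
  set e : ZMod n → ℂ := fun k => stdAddChar (-k) with he
  have hnorm : ∀ k, Complex.normSq (e k) = 1 := by
    intro k
    rw [he]
    simp only
    rw [stdAddChar_apply, Complex.normSq_eq_norm_sq, Circle.norm_coe, one_pow]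
  have hpow : ∀ (k : ZMod n) (a : ℕ), e k ^ a = 1 → (a : ZMod n) * k = 0 := by
    intro k a hk
    rw [he] at hk
    simp only at hk
    rw [← char_pow] at hk
    have : (stdAddChar (-((a : ZMod n) * k)) : ℂ) = stdAddChar (0 : ZMod n) := by
      rw [hk]; simp
    have h2 := injective_stdAddChar this
    simpa using h2
  have hunit : ∀ a : ℕ, Nat.Coprime a n → ∀ k : ZMod n, (a : ZMod n) * k = 0 → k = 0 := by
    intro a ha k hk
    have hu : IsUnit (a : ZMod n) := (ZMod.isUnit_iff_coprime a n).mpr ha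
    exact (hu.mul_right_eq_zero).mp hk
  have c2 : Nat.Coprime 2 n := Nat.Coprime.coprime_dvd_left (by norm_num : 2 ∣ 30) hn.symm
  have c3 : Nat.Coprime 3 n := Nat.Coprime.coprime_dvd_left (by norm_num : 3 ∣ 30) hn.symm
  have c5 : Nat.Coprime 5 n := Nat.Coprime.coprime_dvd_left (by norm_num : 5 ∣ 30) hn.symm
  have c4 : Nat.Coprime 4 n := by
    have := Nat.Coprime.pow_left 2 c2
    simpa using this
  have n1 : ∀ k, k ≠ 0 → e k ≠ 1 := by
    intro k hk h1
    exact hk (hunit 1 (Nat.coprime_one_left n) k (hpow k 1 (by simpa using h1)))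
  have n2 : ∀ k, k ≠ 0 → e k ^ 2 ≠ 1 := fun k hk h1 => hk (hunit 2 c2 k (hpow k 2 h1))
  have n3 : ∀ k, k ≠ 0 → e k ^ 3 ≠ 1 := fun k hk h1 => hk (hunit 3 c3 k (hpow k 3 h1))
  have n4 : ∀ k, k ≠ 0 → e k ^ 4 ≠ 1 := fun k hk h1 => hk (hunit 4 c4 k (hpow k 4 h1))
  have n5 : ∀ k, k ≠ 0 → e k ^ 5 ≠ 1 := fun k hk h1 => hk (hunit 5 c5 k (hpow k 5 h1))
  set F : ZMod n → ℂ := fou X with hF
  set Z : ZMod n → ℂ := fun k => (1 - e k ^ 2) * (1 - e k ^ 4) * F k with hZ
  have he2 : ∀ k, e (2 * k) = e k ^ 2 := by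
    intro k
    have := char_pow k 2
    simpa [he] using this
  have hZ2 : ∀ k, Z (2 * k) = e k * (1 + e k ^ 2 + e k ^ 4 - e k ^ 5) * Z k := by
    intro k
    by_cases hk : k = 0
    · subst hk
      have : e 0 = 1 := by simp [he]
      simp [hZ, this]
    · have hrel := fou_relation X h hh hW k
      simp only at hrel
      have h1 : (1 - e k) ≠ 0 := sub_ne_zero.mpr (Ne.symm (n1 k hk))
      have h3 : (1 - e k) * e k * (1 + e k) * (1 + e k ^ 2 + e k ^ 4 - e k ^ 5) * F k =
          (1 - e k ^ 8) * F (2 * k) := by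
        apply mul_left_cancel₀ h1
        linear_combination hrel
      simp only [hZ, he2]
      linear_combination -(1 - e k ^ 4) * h3
  set c : ZMod n → ℝ := fun k => (e k).re with hc
  have hc2 : ∀ k, c (2 * k) = 2 * c k ^ 2 - 1 := by
    intro k
    have h1 := hnorm k
    rw [Complex.normSq_apply] at h1
    simp only [hc, he2]
    rw [pow_two, Complex.mul_re]
    nlinarith
  have hcb : ∀ k, -1 ≤ c k ∧ c k ≤ 1 := by
    intro k
    have h1 := hnorm k
    rw [Complex.normSq_apply] at h1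
    simp only [hc]
    constructor <;> nlinarith [mul_self_nonneg (e k).im, mul_self_nonneg (e k).re]
  set q : ZMod n → ℝ := fun k => Complex.normSq (Z k) with hq
  set K : ℝ → ℝ := fun t => 2 - 6 * t - 8 * t ^ 2 + 32 * t ^ 3 + 16 * t ^ 4 - 32 * t ^ 5 with hK
  have hq2 : ∀ k, q (2 * k) = K (c k) * q k := by
    intro k
    simp only [hq, hZ2, hK]
    rw [Complex.normSq_mul, Complex.normSq_mul, hnorm, normSq_kappa _ (hnorm k), one_mul]
  set H : ℝ → ℝ := fun c => 469 - 1420 * c - 3944 * c ^ 2 + 14288 * c ^ 3 + 16176 * c ^ 4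
    - 54496 * c ^ 5 - 30240 * c ^ 6 + 97408 * c ^ 7 + 26496 * c ^ 8 - 82432 * c ^ 9
    - 8704 * c ^ 10 + 26624 * c ^ 11 with hH
  have hsumeq : ∑ k, H (c k) * q k = ∑ k, H (c (2 * k)) * q (2 * k) := by
    let s : ZMod n ≃ ZMod n :=
      { toFun := fun i => 2 * i
        invFun := fun j => h * j
        left_inv := fun i => by
          show h * (2 * i) = i
          linear_combination i * hh
        right_inv := fun j => by
          show 2 * (h * j) = j
          linear_combination j * hh }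
    exact (Equiv.sum_comp s (fun k => H (c k) * q k)).symm
  have hzero : ∑ k, (K (c k) * H (2 * c k ^ 2 - 1) - H (c k)) * q k = 0 := by
    have : ∑ k, (K (c k) * H (2 * c k ^ 2 - 1) - H (c k)) * q k =
        ∑ k, H (c (2 * k)) * q (2 * k) - ∑ k, H (c k) * q k := by
      rw [← Finset.sum_sub_distrib]
      refine Finset.sum_congr rfl (fun k _ => ?_)
      rw [hc2, hq2]
      ring
    rw [this, hsumeq, sub_self]
  have hpos : ∀ k, k ≠ 0 → 0 < K (c k) * H (2 * c k ^ 2 - 1) - H (c k) := by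
    intro k hk
    have hid := cert_identity (c k)
    have hG := certG_pos (c k) (hcb k).1 (hcb k).2
    simp only [hK, hH]
    rw [hid]
    have hs := hnorm k
    rw [Complex.normSq_apply] at hs
    have hA : 2 * c k + 1 ≠ 0 := by
      intro h0
      apply n3 k hk
      have hre : (e k).re = -1 / 2 := by simp only [hc] at h0; linarith
      have h1 : e k * (starRingEnd ℂ) (e k) = 1 := by
        rw [Complex.mul_conj, hnorm]; simp
      have h2 : e k + (starRingEnd ℂ) (e k) = -1 := by
        rw [Complex.add_conj, hre]; push_cast; ring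
      have h4 : e k ^ 2 + e k + 1 = 0 := by
        linear_combination e k * h2 - h1
      linear_combination (e k - 1) * h4
    have hB : 4 * c k ^ 2 + 2 * c k - 1 ≠ 0 := by
      intro h0
      apply n5 k hk
      have h1 : e k * (starRingEnd ℂ) (e k) = 1 := by
        rw [Complex.mul_conj, hnorm]; simp
      have h2 : e k + (starRingEnd ℂ) (e k) = 2 * (c k : ℂ) := by
        rw [Complex.add_conj]; push_cast; rfl
      have h0' : (4 * (c k : ℂ) ^ 2 + 2 * (c k : ℂ) - 1) = 0 := by
        have := congrArg (fun t : ℝ => (t : ℂ)) h0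
        simpa using this
      set w := (starRingEnd ℂ) (e k) with hw
      have h4 : e k ^ 4 + e k ^ 3 + e k ^ 2 + e k + 1 = 0 := by
        have h5 : (e k + w) ^ 2 + (e k + w) - 1 = 0 := by
          rw [h2]; linear_combination h0'
        linear_combination e k ^ 2 * h5 - (2 * e k ^ 2 + e k + (e k * w + 1)) * h1
      linear_combination (e k - 1) * h4
    have hA2 : 0 < (2 * c k + 1) ^ 2 := by positivity
    have hB2 : 0 < (4 * c k ^ 2 + 2 * c k - 1) ^ 2 := by positivity
    apply mul_pos (mul_pos hA2 hB2)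
    linarith
  have hq0 : q 0 = 0 := by
    have : e 0 = 1 := by simp [he]
    simp [hq, hZ, this]
  have hqn : ∀ k, 0 ≤ q k := fun k => Complex.normSq_nonneg _
  have hterm : ∀ k ∈ (Finset.univ : Finset (ZMod n)),
      0 ≤ (K (c k) * H (2 * c k ^ 2 - 1) - H (c k)) * q k := by
    intro k _
    by_cases hk : k = 0
    · rw [hk, hq0, mul_zero]
    · exact mul_nonneg (hpos k hk).le (hqn k)
  have hall := (Finset.sum_eq_zero_iff_of_nonneg hterm).mp hzero
  have hF0 : ∀ k, F k = 0 := by
    intro k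
    by_cases hk : k = 0
    · rw [hk, hF]
      simp only [fou, mul_zero, neg_zero, AddChar.map_zero_eq_one, one_mul]
      exact_mod_cast hsum
    · have h1 := hall k (Finset.mem_univ k)
      have h2 : q k = 0 := by
        rcases mul_eq_zero.mp h1 with h3 | h3
        · exact absurd h3 (hpos k hk).ne'
        · exact h3
      have h3 : Z k = 0 := Complex.normSq_eq_zero.mp h2
      simp only [hZ] at h3
      rcases mul_eq_zero.mp h3 with h4 | h4
      · rcases mul_eq_zero.mp h4 with h5 | h5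
        · exact absurd (sub_eq_zero.mp h5).symm (n2 k hk)
        · exact absurd (sub_eq_zero.mp h5).symm (n4 k hk)
      · exact h4
  have hdft : ZMod.dft (fun j => (X j : ℂ)) = 0 := by
    funext k
    rw [ZMod.dft_apply]
    simp only [smul_eq_mul, Pi.zero_apply]
    exact hF0 k
  have hX : (fun j => (X j : ℂ)) = 0 := by
    rw [← (ZMod.dft (N := n) (E := ℂ)).map_eq_zero_iff]
    exact hdft
  funext j
  have := congrFun hX j
  simp only [Pi.zero_apply] at this ⊢
  exact_mod_cast this

/-- Hence `foxW` maps onto the zero-sum vectors. -/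
theorem foxW_surjective (hn : Nat.Coprime n 30) (h : ZMod n) (hh : 2 * h = 1)
    (A : ZMod n → ℝ) (hA : ∑ i, A i = 0) : ∃ X : ZMod n → ℝ, ∀ i, foxW h X i = A i := by
  classical
  let L : (ZMod n → ℝ) →ₗ[ℝ] (ZMod n → ℝ) :=
    { toFun := fun X i => foxW h X i + ∑ j, X j
      map_add' := fun X Y => by
        funext i
        simp only [foxW, Pi.add_apply, Finset.sum_add_distrib]
        ring
      map_smul' := fun r X => by
        funext i
        simp only [foxW, Pi.smul_apply, smul_eq_mul, ← Finset.mul_sum, RingHom.id_apply]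
        ring }
  have hshift : ∀ (X : ZMod n → ℝ) (a : ZMod n), ∑ i, X (i - a) = ∑ i, X i := fun X a =>
    Fintype.sum_equiv (Equiv.subRight a) _ _ (fun i => rfl)
  have hhalf : ∀ (X : ZMod n → ℝ) (a : ZMod n), ∑ i, X (h * (i - a)) = ∑ i, X i := by
    intro X a
    let s : ZMod n ≃ ZMod n :=
      { toFun := fun i => h * (i - a)
        invFun := fun j => 2 * j + a
        left_inv := fun i => by
          show 2 * (h * (i - a)) + a = i
          linear_combination (i - a) * hh
        right_inv := fun j => by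
          show h * (2 * j + a - a) = j
          linear_combination j * hh }
    exact Fintype.sum_equiv s _ _ (fun i => rfl)
  have hsumW : ∀ X : ZMod n → ℝ, ∑ i, foxW h X i = 0 := by
    intro X
    have h0 := hhalf X 0
    simp only [sub_zero] at h0
    simp only [foxW, Finset.sum_add_distrib, Finset.sum_sub_distrib, ← Finset.mul_sum, hshift,
      hhalf, h0]
    ring
  have hnpos : (0 : ℝ) < n := by exact_mod_cast Nat.pos_of_ne_zero (NeZero.ne n)
  have hsumL : ∀ X : ZMod n → ℝ, ∑ i, L X i = n * ∑ j, X j := by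
    intro X
    show ∑ i, (foxW h X i + ∑ j, X j) = n * ∑ j, X j
    rw [Finset.sum_add_distrib, hsumW, Finset.sum_const, Finset.card_univ, ZMod.card]
    simp
  have hinj : Function.Injective L := by
    rw [← LinearMap.ker_eq_bot, LinearMap.ker_eq_bot']
    intro X hX
    have h1 := hsumL X
    rw [hX] at h1
    have h2 : ∑ j, X j = 0 := by
      have : (n : ℝ) * ∑ j, X j = 0 := by rw [← h1]; simp
      rcases mul_eq_zero.mp this with h3 | h3
      · exact absurd h3 hnpos.ne'
      · exact h3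
    refine foxW_injective hn h hh X h2 (fun i => ?_)
    have h3 : foxW h X i + ∑ j, X j = 0 := congrFun hX i
    rw [h2, add_zero] at h3
    exact h3
  obtain ⟨X, hX⟩ := (LinearMap.injective_iff_surjective.mp hinj) A
  refine ⟨X, fun i => ?_⟩
  have h1 := hsumL X
  rw [hX, hA] at h1
  have h2 : ∑ j, X j = 0 := by
    rcases mul_eq_zero.mp h1.symm with h3 | h3
    · exact absurd h3 hnpos.ne'
    · exact h3
  have h3 : foxW h X i + ∑ j, X j = A i := congrFun hX i
  rw [h2, add_zero] at h3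
  exact h3

end Pool.Agent.Lib.MP_88e1a1_al
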