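import Mathlib.Analysis.Fourier.ZMod
import Mathlib.LinearAlgebra.UnitaryGroup
import Pool.Agent.Lib.MP_88e1a1_al.Fourier

set_option autoImplicit false

open Finset Matrix

namespace Pool.Agent.Lib.MP_88e1a1_al

section general
variable {ι : Type*} [Fintype ι] [DecidableEq ι]

/-- Monomial unitary matrix with permutation `s` and phases `X`. -/
noncomputable def mono (X : ι → ℝ) (s : Equiv.Perm ι) : Matrix ι ι ℂ :=
  Matrix.of fun i j => if i = s j then Complex.exp ((X i : ℂ) * Complex.I) else 0

theorem mono_mul (X Y : ι → ℝ) (s t : Equiv.Perm ι) :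
    mono X s * mono Y t = mono (fun i => X i + Y (s⁻¹ i)) (s * t) := by
  ext i k
  rw [Matrix.mul_apply]
  simp only [mono, Matrix.of_apply]
  rw [Finset.sum_eq_single (t k)]
  · by_cases h : i = s (t k)
    · have h' : i = (s * t) k := h
      have h2 : s⁻¹ i = t k := by rw [h]; simp
      rw [if_pos h, if_pos rfl, if_pos h', ← Complex.exp_add, h2]
      push_cast
      congr 1
      ring
    · have h' : ¬ i = (s * t) k := h
      rw [if_neg h, if_neg h', zero_mul]
  · intro j _ hj
    rw [if_neg hj, mul_zero]
  · intro h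
    exact absurd (Finset.mem_univ _) h

omit [Fintype ι] in
theorem star_mono (X : ι → ℝ) (s : Equiv.Perm ι) :
    star (mono X s) = mono (fun i => - X (s i)) s⁻¹ := by
  ext i j
  rw [Matrix.star_apply]
  simp only [mono, Matrix.of_apply]
  by_cases h : j = s i
  · have h' : i = s⁻¹ j := by rw [h]; simp
    rw [if_pos h, if_pos h', ← h]
    simp [← Complex.exp_conj]
  · have h' : ¬ i = s⁻¹ j := by
      intro h2; apply h; rw [h2]; simp
    rw [if_neg h, if_neg h', star_zero]

omit [Fintype ι] in
theorem mono_zero_one : mono (fun _ => 0) (1 : Equiv.Perm ι) = (1 : Matrix ι ι ℂ) := by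
  ext i j
  simp only [mono, Matrix.of_apply, Equiv.Perm.coe_one, id_eq, Matrix.one_apply]
  simp

theorem mono_mem (X : ι → ℝ) (s : Equiv.Perm ι) :
    mono X s ∈ Matrix.unitaryGroup ι ℂ := by
  rw [Matrix.mem_unitaryGroup_iff, star_mono, mono_mul, ← mono_zero_one, mul_inv_cancel]
  congr 1
  funext i
  simp

omit [Fintype ι] in
theorem mono_one (X : ι → ℝ) :
    mono X (1 : Equiv.Perm ι) = Matrix.diagonal fun i => Complex.exp ((X i : ℂ) * Complex.I) := by
  ext i j
  simp only [mono, Matrix.of_apply, Equiv.Perm.coe_one, id_eq, Matrix.diagonal_apply]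
  rfl

end general

variable {n : ℕ} [NeZero n]

/-- multiplication by two -/
def dbl (h : ZMod n) (hh : 2 * h = 1) : Equiv.Perm (ZMod n) where
  toFun := fun i => 2 * i
  invFun := fun j => h * j
  left_inv := fun i => by
    show h * (2 * i) = i
    linear_combination i * hh
  right_inv := fun j => by
    show 2 * (h * j) = j
    linear_combination j * hh

/-- translation by one -/
def shf (n : ℕ) : Equiv.Perm (ZMod n) where
  toFun := fun i => i + 1
  invFun := fun i => i - 1
  left_inv := fun i => by
    show i + 1 - 1 = i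
    ring
  right_inv := fun i => by
    show i - 1 + 1 = i
    ring

theorem word_mono (h : ZMod n) (hh : 2 * h = 1) (X : ZMod n → ℝ) :
    let x : Matrix (ZMod n) (ZMod n) ℂ := mono X (dbl h hh)
    let y : Matrix (ZMod n) (ZMod n) ℂ := mono (fun _ => 0) (shf n)
    (x * y * star x * star y) * (x ^ 2 * y ^ 2 * star (x ^ 2) * star (y ^ 2)) *
            star (x * y * star x * star y) *
            star (x ^ 2 * y ^ 2 * star (x ^ 2) * star (y ^ 2)) =
      Matrix.diagonal fun i => Complex.exp ((foxW h X i : ℂ) * Complex.I) := by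
  intro x y
  rw [← mono_one]
  have ds : ∀ i, (dbl h hh) i = 2 * i := fun i => rfl
  have di : ∀ i, (dbl h hh)⁻¹ i = h * i := fun i => rfl
  have ss : ∀ i, (shf n) i = i + 1 := fun i => rfl
  have si : ∀ i, (shf n)⁻¹ i = i - 1 := fun i => rfl
  simp only [x, y, pow_two, mono_mul, star_mono]
  have hperm : ∀ (Y Y' : ZMod n → ℝ) (s s' : Equiv.Perm (ZMod n)), s = s' → (∀ i, Y i = Y' i) →
      mono Y s = mono Y' s' := by
    intro Y Y' s s' h1 h2
    rw [h1, funext h2]
  have r1 : ∀ a, 2 * (h * a) = a := fun a => by linear_combination a * hh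
  have r2 : ∀ a, h * (2 * a) = a := fun a => by linear_combination a * hh
  have r3 : 2 * h = 1 := hh
  have r4 : h * 2 = 1 := by linear_combination hh
  apply hperm
  · ext i
    simp only [Equiv.Perm.mul_apply, _root_.mul_inv_rev, inv_inv, ds, di, ss, si, Equiv.Perm.coe_one, id_eq]
    simp only [mul_sub, mul_add, r1, r2, mul_one, r3, r4]
    ring
  · intro i
    simp only [Equiv.Perm.mul_apply, _root_.mul_inv_rev, inv_inv, ds, di, ss, si, foxW]
    simp only [mul_sub, mul_add, r1, r2, mul_one, r3, r4]
    ring_nf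
    have a1 : -1 + i * h + h = i * h - h := by linear_combination hh
    have a2 : -5 + i * h + h = i * h - h * 9 := by linear_combination 5 * hh
    have a3 : -4 + i * h = i * h - h * 8 := by linear_combination 4 * hh
    rw [a1, a2, a3]
    ring

end Pool.Agent.Lib.MP_88e1a1_al
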