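import Mathlib.Analysis.Matrix.Spectrum
import Mathlib.LinearAlgebra.UnitaryGroup
import Mathlib.LinearAlgebra.Matrix.Charpoly.Basic
import Mathlib.Analysis.Complex.Basic

set_option autoImplicit false

open Matrix Polynomial

namespace Pool.Agent.Lib.MP_88e1a1_al

theorem exists_circle_not_root (p : ℂ[X]) (hp : p ≠ 0) :
    ∃ μ : ℂ, (starRingEnd ℂ) μ * μ = 1 ∧ p.eval μ ≠ 0 := by
  have hne : ∀ t : ℕ, (t : ℂ) - Complex.I ≠ 0 := by
    intro t h
    have := congrArg Complex.im h
    simp at this
  let f : ℕ → ℂ := fun t => ((t : ℂ) + Complex.I) / ((t : ℂ) - Complex.I)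
  have hf : Function.Injective f := by
    intro s t hst
    have h1 : ((s : ℂ) + Complex.I) * ((t : ℂ) - Complex.I) =
        ((t : ℂ) + Complex.I) * ((s : ℂ) - Complex.I) := by
      have := (div_eq_div_iff (hne s) (hne t)).mp hst
      exact this
    have h2 : (2 * Complex.I) * ((t : ℂ) - (s : ℂ)) = 0 := by linear_combination h1
    have h3 : (t : ℂ) - (s : ℂ) = 0 := by
      rcases mul_eq_zero.mp h2 with h | h
      · exact absurd h (by simp)
      · exact h
    have h4 : (t : ℂ) = (s : ℂ) := sub_eq_zero.mp h3
    exact_mod_cast h4.symm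
  obtain ⟨μ, ⟨t, rfl⟩, hμ⟩ :=
    (Set.infinite_range_of_injective hf).exists_notMem_finset p.roots.toFinset
  refine ⟨f t, ?_, ?_⟩
  · have h1 : (starRingEnd ℂ) (f t) = ((t : ℂ) - Complex.I) / ((t : ℂ) + Complex.I) := by
      simp only [f, map_div₀, map_add, map_sub, map_natCast, Complex.conj_I]
      ring_nf
    have hne' : (t : ℂ) + Complex.I ≠ 0 := by
      intro h
      have := congrArg Complex.im h
      simp at this
    rw [h1]
    simp only [f]
    field_simp [hne t, hne']
  · intro h
    apply hμ
    simp only [Multiset.mem_toFinset]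
    exact (Polynomial.mem_roots hp).mpr h

variable {ι : Type*} [Fintype ι] [DecidableEq ι]

theorem unitary_diag (U : Matrix ι ι ℂ) (hU : U ∈ Matrix.unitaryGroup ι ℂ) :
    ∃ V ∈ Matrix.unitaryGroup ι ℂ, ∃ d : ι → ℂ, U = V * Matrix.diagonal d * star V := by
  classical
  have hU1 : star U * U = 1 := Matrix.mem_unitaryGroup_iff'.mp hU
  have hU2 : U * star U = 1 := Matrix.mem_unitaryGroup_iff.mp hU
  obtain ⟨μ, hμ, hdet⟩ := exists_circle_not_root U.charpoly (Matrix.charpoly_monic U).ne_zero
  rw [Matrix.eval_charpoly] at hdet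
  set M : Matrix ι ι ℂ := Matrix.scalar ι μ with hM
  have hMc : ∀ B : Matrix ι ι ℂ, M * B = B * M := fun B =>
    (Matrix.scalar_commute μ (fun r' => Commute.all μ r') B).eq
  have hMs : ∀ B : Matrix ι ι ℂ, star M * B = B * star M := by
    intro B
    have := hMc (star B)
    have h2 := congrArg star this
    simp only [star_mul, star_star] at h2
    exact h2.symm
  have hMM : star M * M = 1 := by
    rw [hM, Matrix.scalar_apply, Matrix.star_eq_conjTranspose, Matrix.diagonal_conjTranspose,
      Matrix.diagonal_mul_diagonal]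
    have : (fun i : ι => (star fun _ : ι => μ) i * μ) = fun _ => 1 := by
      funext i
      exact hμ
    rw [this, Matrix.diagonal_one]
  set S : Matrix ι ι ℂ := M - U with hS
  have hunit : IsUnit S.det := isUnit_iff_ne_zero.mpr hdet
  set T : Matrix ι ι ℂ := S⁻¹ with hT
  have hST : S * T = 1 := Matrix.mul_nonsing_inv S hunit
  have hTS : T * S = 1 := Matrix.nonsing_inv_mul S hunit
  have hstar : star T * star S = 1 := by rw [← star_mul, hST, star_one]
  have hstar' : star S * star T = 1 := by rw [← star_mul, hTS, star_one]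
  set A : Matrix ι ι ℂ := Complex.I • ((M + U) * T) with hA
  have key : (star M + star U) * S = - (star S * (M + U)) := by
    simp only [hS, star_sub]
    have e1 : star M * U = U * star M := hMs U
    have e2 : star U * M = M * star U := (hMc _).symm
    simp only [mul_sub, add_mul, sub_mul, mul_add, hU1, hMM]
    abel
  have hAh : A.IsHermitian := by
    show star A = A
    rw [hA, star_smul, star_mul, star_add]
    have h1 : star T * (star M + star U) = - ((M + U) * T) := by
      calc star T * (star M + star U) = star T * ((star M + star U) * S) * T := by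
            rw [mul_assoc, mul_assoc, hST, mul_one]
        _ = star T * (- (star S * (M + U))) * T := by rw [key]
        _ = - ((star T * star S) * (M + U) * T) := by noncomm_ring
        _ = - ((M + U) * T) := by rw [hstar, one_mul]
    rw [h1]
    simp
  -- `A + i = 2 i μ T`
  have hAI : A + Complex.I • (1 : Matrix ι ι ℂ) = (2 * Complex.I) • (M * T) := by
    rw [hA, ← hST, hS]
    simp only [add_mul, sub_mul, smul_add, smul_sub, mul_smul, two_smul]
    abel
  set V : Matrix ι ι ℂ := (hAh.eigenvectorUnitary : Matrix ι ι ℂ) with hV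
  have hVmem : V ∈ Matrix.unitaryGroup ι ℂ := hAh.eigenvectorUnitary.2
  have hV1 : star V * V = 1 := Matrix.mem_unitaryGroup_iff'.mp hVmem
  have hV2 : V * star V = 1 := Matrix.mem_unitaryGroup_iff.mp hVmem
  set r : ι → ℝ := hAh.eigenvalues with hr
  have hspec : A = V * Matrix.diagonal (fun i => (r i : ℂ)) * star V := by
    have h := hAh.spectral_theorem
    rw [Unitary.conjStarAlgAut_apply] at h
    exact h
  have hrne : ∀ i, (r i : ℂ) + Complex.I ≠ 0 := by
    intro i h
    have := congrArg Complex.im h
    simp at this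
  set B : Matrix ι ι ℂ :=
    V * Matrix.diagonal (fun i => (2 * Complex.I) * μ / ((r i : ℂ) + Complex.I)) * star V with hB
  have hAB : (A + Complex.I • (1 : Matrix ι ι ℂ)) * B = (2 * Complex.I) • M := by
    have h1 : A + Complex.I • (1 : Matrix ι ι ℂ) =
        V * Matrix.diagonal (fun i => (r i : ℂ) + Complex.I) * star V := by
      have h2 : Matrix.diagonal (fun i => (r i : ℂ) + Complex.I) =
          Matrix.diagonal (fun i => (r i : ℂ)) + Complex.I • (1 : Matrix ι ι ℂ) := by
        rw [← Matrix.diagonal_one, ← Matrix.diagonal_smul, Matrix.diagonal_add]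
        congr 1
        funext i
        simp
      rw [h2, mul_add, add_mul, ← hspec]
      congr 1
      rw [mul_smul_comm, mul_one, smul_mul_assoc, hV2]
    have h3 : Matrix.diagonal (fun i => (r i : ℂ) + Complex.I) *
        Matrix.diagonal (fun i => (2 * Complex.I) * μ / ((r i : ℂ) + Complex.I)) =
        (2 * Complex.I) • M := by
      rw [Matrix.diagonal_mul_diagonal, hM, Matrix.scalar_apply, ← Matrix.diagonal_smul]
      congr 1
      funext i
      simp only [Pi.smul_apply, smul_eq_mul]
      exact mul_div_cancel₀ _ (hrne i)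
    rw [h1, hB]
    calc V * Matrix.diagonal (fun i => (r i : ℂ) + Complex.I) * star V *
          (V * Matrix.diagonal (fun i => (2 * Complex.I) * μ / ((r i : ℂ) + Complex.I)) * star V)
        = V * Matrix.diagonal (fun i => (r i : ℂ) + Complex.I) * (star V * V) *
          (Matrix.diagonal (fun i => (2 * Complex.I) * μ / ((r i : ℂ) + Complex.I)) * star V) := by
            noncomm_ring
      _ = V * (Matrix.diagonal (fun i => (r i : ℂ) + Complex.I) *
          Matrix.diagonal (fun i => (2 * Complex.I) * μ / ((r i : ℂ) + Complex.I))) * star V := by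
            rw [hV1, mul_one]
            noncomm_ring
      _ = (2 * Complex.I) • M := by
            rw [h3, mul_smul_comm, smul_mul_assoc, ← hMc V, mul_assoc, hV2, mul_one]
  have h2I : (2 * Complex.I) ≠ 0 := by simp
  have hSB : S = B := by
    have h1 : (2 * Complex.I) • (M * T * B) = (2 * Complex.I) • M := by
      rw [← hAB, hAI, smul_mul_assoc]
    have h2 : M * T * B = M := smul_right_injective _ h2I h1
    have h3 : T * B = 1 := by
      have : star M * (M * T * B) = star M * M := congrArg (fun Q => star M * Q) h2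
      rw [mul_assoc M, ← mul_assoc, hMM, one_mul] at this
      exact this
    calc S = S * (T * B) := by rw [h3, mul_one]
      _ = B := by rw [← mul_assoc, hST, one_mul]
  refine ⟨V, hVmem, fun i => μ - (2 * Complex.I) * μ / ((r i : ℂ) + Complex.I), ?_⟩
  have h4 : U = M - B := by rw [← hSB, hS]; abel
  rw [h4, hB, hM, Matrix.scalar_apply]
  have h5 : Matrix.diagonal (fun i => μ - (2 * Complex.I) * μ / ((r i : ℂ) + Complex.I)) =
      Matrix.diagonal (fun _ : ι => μ) -
        Matrix.diagonal (fun i => (2 * Complex.I) * μ / ((r i : ℂ) + Complex.I)) := by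
    rw [Matrix.diagonal_sub]
  rw [h5, mul_sub, sub_mul]
  congr 1
  have h6 := hMc V
  rw [hM, Matrix.scalar_apply] at h6
  rw [← h6, mul_assoc, hV2, mul_one]

end Pool.Agent.Lib.MP_88e1a1_al
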