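import Mathlib.Analysis.SpecialFunctions.Complex.Arg
import Pool.Agent.Lib.MP_88e1a1_al.Monomial
import Pool.Agent.Lib.MP_88e1a1_al.UnitaryDiag

set_option autoImplicit false

open Matrix

namespace Pool.Agent.Lib.MP_88e1a1_al

section general
variable {ι : Type*} [Fintype ι] [DecidableEq ι]

/-- star commutator -/
noncomputable def scom (x y : Matrix ι ι ℂ) : Matrix ι ι ℂ := x * y * star x * star y

/-- the word -/
noncomputable def swd (x y : Matrix ι ι ℂ) : Matrix ι ι ℂ :=
  scom x y * scom (x ^ 2) (y ^ 2) * star (scom x y) * star (scom (x ^ 2) (y ^ 2))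

theorem scom_smul (x y : Matrix ι ι ℂ) (a b : ℂ) (ha : (starRingEnd ℂ) a * a = 1)
    (hb : (starRingEnd ℂ) b * b = 1) : scom (a • x) (b • y) = scom x y := by
  unfold scom
  simp only [star_smul, smul_mul_assoc, mul_smul_comm, smul_smul]
  have h2 : ∀ c : ℂ, c = 1 → c • (x * y * star x * star y) = x * y * star x * star y := by
    intro c hc
    rw [hc, one_smul]
  apply h2
  have ha' : star a * a = 1 := ha
  have hb' : star b * b = 1 := hb
  linear_combination (star b * b) * ha' + hb'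

theorem swd_smul (x y : Matrix ι ι ℂ) (a b : ℂ) (ha : (starRingEnd ℂ) a * a = 1)
    (hb : (starRingEnd ℂ) b * b = 1) : swd (a • x) (b • y) = swd x y := by
  have ha2 : (starRingEnd ℂ) (a ^ 2) * a ^ 2 = 1 := by
    rw [map_pow, ← mul_pow, ha, one_pow]
  have hb2 : (starRingEnd ℂ) (b ^ 2) * b ^ 2 = 1 := by
    rw [map_pow, ← mul_pow, hb, one_pow]
  unfold swd
  rw [smul_pow, smul_pow, scom_smul x y a b ha hb, scom_smul _ _ _ _ ha2 hb2]

theorem conj_mul (V x y : Matrix ι ι ℂ) (hV : star V * V = 1) :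
    (V * x * star V) * (V * y * star V) = V * (x * y) * star V := by
  calc (V * x * star V) * (V * y * star V) = V * x * (star V * V) * y * star V := by noncomm_ring
    _ = V * (x * y) * star V := by rw [hV, mul_one]; noncomm_ring

omit [DecidableEq ι] in
theorem star_conj (V x : Matrix ι ι ℂ) : star (V * x * star V) = V * star x * star V := by
  rw [star_mul, star_mul, star_star, mul_assoc]

theorem scom_conj (V x y : Matrix ι ι ℂ) (hV : star V * V = 1) :
    scom (V * x * star V) (V * y * star V) = V * scom x y * star V := by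
  unfold scom
  rw [star_conj, star_conj, conj_mul _ _ _ hV, conj_mul _ _ _ hV, conj_mul _ _ _ hV]

theorem swd_conj (V x y : Matrix ι ι ℂ) (hV : star V * V = 1) :
    swd (V * x * star V) (V * y * star V) = V * swd x y * star V := by
  unfold swd
  have h2 : ∀ z : Matrix ι ι ℂ, (V * z * star V) ^ 2 = V * z ^ 2 * star V := by
    intro z
    rw [pow_two, pow_two, conj_mul _ _ _ hV]
  rw [h2, h2, scom_conj _ _ _ hV, scom_conj _ _ _ hV, star_conj, star_conj,
    conj_mul _ _ _ hV, conj_mul _ _ _ hV, conj_mul _ _ _ hV]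

theorem exists_phase (x : Matrix ι ι ℂ) [Nonempty ι] (hx : x ∈ Matrix.unitaryGroup ι ℂ) :
    ∃ a : ℂ, (starRingEnd ℂ) a * a = 1 ∧ (a • x).det = 1 := by
  have h1 : star x * x = 1 := Matrix.mem_unitaryGroup_iff'.mp hx
  have hdet : star x.det * x.det = 1 := by
    have := congrArg Matrix.det h1
    rw [Matrix.det_mul, Matrix.det_one, Matrix.star_eq_conjTranspose, Matrix.det_conjTranspose] at this
    exact this
  have hnorm : ‖x.det‖ = 1 := by
    have h2 : Complex.normSq x.det = 1 := by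
      have h3 : (starRingEnd ℂ) x.det * x.det = 1 := hdet
      rw [← Complex.normSq_eq_conj_mul_self] at h3
      exact_mod_cast h3
    rw [Complex.normSq_eq_norm_sq] at h2
    have h4 : 0 ≤ ‖x.det‖ := norm_nonneg _
    nlinarith
  set θ : ℝ := Complex.arg x.det with hθ
  have hexp : Complex.exp ((θ : ℂ) * Complex.I) = x.det := by
    have := Complex.norm_mul_exp_arg_mul_I x.det
    rw [hnorm] at this
    simpa using this
  set N : ℕ := Fintype.card ι with hN
  have hNpos : (N : ℂ) ≠ 0 := by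
    have : N ≠ 0 := Fintype.card_ne_zero
    exact_mod_cast this
  refine ⟨Complex.exp (((-(θ / N) : ℝ) : ℂ) * Complex.I), ?_, ?_⟩
  · rw [← Complex.exp_conj, ← Complex.exp_add]
    simp
  · rw [Matrix.det_smul, ← hexp, ← Complex.exp_nat_mul, ← Complex.exp_add, ← hN]
    have : (N : ℂ) * (((-(θ / N) : ℝ) : ℂ) * Complex.I) + (θ : ℂ) * Complex.I = 0 := by
      push_cast
      field_simp
      ring
    rw [this, Complex.exp_zero]

theorem unitary_conj_mem (V x : Matrix ι ι ℂ) (hV : V ∈ Matrix.unitaryGroup ι ℂ)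
    (hx : x ∈ Matrix.unitaryGroup ι ℂ) : V * x * star V ∈ Matrix.unitaryGroup ι ℂ :=
  mul_mem (mul_mem hV hx) (Unitary.star_mem hV)

theorem smul_unitary_mem (a : ℂ) (x : Matrix ι ι ℂ) (ha : (starRingEnd ℂ) a * a = 1)
    (hx : x ∈ Matrix.unitaryGroup ι ℂ) : a • x ∈ Matrix.unitaryGroup ι ℂ := by
  rw [Matrix.mem_unitaryGroup_iff'] at hx ⊢
  rw [star_smul, smul_mul_assoc, mul_smul_comm, smul_smul, hx]
  have : star a * a = 1 := ha
  rw [this, one_smul]

/-- If every diagonal matrix in `SU` is a value of the word on unitary pairs, the word map is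
onto `SU`. -/
theorem reduce_to_diagonal [Nonempty ι]
    (H : ∀ A : ι → ℝ, ∑ i, A i = 0 → ∃ x ∈ Matrix.unitaryGroup ι ℂ,
      ∃ y ∈ Matrix.unitaryGroup ι ℂ,
        swd x y = Matrix.diagonal fun i => Complex.exp ((A i : ℂ) * Complex.I))
    (g : Matrix ι ι ℂ) (hg : g ∈ Matrix.specialUnitaryGroup ι ℂ) :
    ∃ x y : Matrix ι ι ℂ, x ∈ Matrix.specialUnitaryGroup ι ℂ ∧
      y ∈ Matrix.specialUnitaryGroup ι ℂ ∧ swd x y = g := by
  classical
  obtain ⟨hgU, hgdet⟩ := Matrix.mem_specialUnitaryGroup_iff.mp hg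
  obtain ⟨V, hV, d, hd⟩ := unitary_diag g hgU
  have hV1 : star V * V = 1 := Matrix.mem_unitaryGroup_iff'.mp hV
  have hV2 : V * star V = 1 := Matrix.mem_unitaryGroup_iff.mp hV
  have hdiag : Matrix.diagonal d = star V * g * V := by
    rw [hd]
    calc Matrix.diagonal d = (star V * V) * Matrix.diagonal d * (star V * V) := by
          rw [hV1, one_mul, mul_one]
      _ = star V * (V * Matrix.diagonal d * star V) * V := by noncomm_ring
  have hdU : Matrix.diagonal d ∈ Matrix.unitaryGroup ι ℂ := by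
    rw [hdiag]
    exact mul_mem (mul_mem (Unitary.star_mem hV) hgU) hV
  have hnorm : ∀ i, ‖d i‖ = 1 := by
    intro i
    have h1 := Matrix.mem_unitaryGroup_iff'.mp hdU
    rw [Matrix.star_eq_conjTranspose, Matrix.diagonal_conjTranspose,
      Matrix.diagonal_mul_diagonal] at h1
    have h2 := congrFun (congrFun h1 i) i
    rw [Matrix.diagonal_apply_eq, Matrix.one_apply_eq] at h2
    have h3 : (starRingEnd ℂ) (d i) * d i = 1 := h2
    rw [← Complex.normSq_eq_conj_mul_self] at h3
    have h4 : Complex.normSq (d i) = 1 := by exact_mod_cast h3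
    rw [Complex.normSq_eq_norm_sq] at h4
    have h5 : 0 ≤ ‖d i‖ := norm_nonneg _
    nlinarith
  set θ : ι → ℝ := fun i => Complex.arg (d i) with hθ
  have hexp : ∀ i, Complex.exp ((θ i : ℂ) * Complex.I) = d i := by
    intro i
    have := Complex.norm_mul_exp_arg_mul_I (d i)
    rw [hnorm i] at this
    simpa using this
  have hprod : ∏ i, d i = 1 := by
    have h1 : (Matrix.diagonal d).det = 1 := by
      rw [hdiag, Matrix.det_mul, Matrix.det_mul, hgdet, mul_one, ← Matrix.det_mul, hV1,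
        Matrix.det_one]
    rw [Matrix.det_diagonal] at h1
    exact h1
  have hsum : Complex.exp (((∑ i, θ i : ℝ) : ℂ) * Complex.I) = 1 := by
    rw [← hprod]
    push_cast
    rw [Finset.sum_mul, Complex.exp_sum]
    exact Finset.prod_congr rfl (fun i _ => hexp i)
  obtain ⟨m, hm⟩ := Complex.exp_eq_one_iff.mp hsum
  have hm' : ∑ i, θ i = m * (2 * Real.pi) := by
    have h1 : (((∑ i, θ i : ℝ) : ℂ) - (m * (2 * Real.pi) : ℂ)) * Complex.I = 0 := by
      linear_combination hm
    rcases mul_eq_zero.mp h1 with h2 | h2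
    · have h3 : ((∑ i, θ i : ℝ) : ℂ) = ((m * (2 * Real.pi) : ℝ) : ℂ) := by
        push_cast
        push_cast at h2
        linear_combination h2
      exact_mod_cast h3
    · exact absurd h2 Complex.I_ne_zero
  obtain ⟨i0⟩ := (inferInstance : Nonempty ι)
  set A : ι → ℝ := fun i => θ i - if i = i0 then m * (2 * Real.pi) else 0 with hA
  have hAsum : ∑ i, A i = 0 := by
    simp only [hA, Finset.sum_sub_distrib, Finset.sum_ite_eq', Finset.mem_univ, if_true]
    rw [hm']
    ring
  have hAexp : ∀ i, Complex.exp ((A i : ℂ) * Complex.I) = d i := by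
    intro i
    rw [← hexp i]
    by_cases hi : i = i0
    · simp only [hA, hi, if_true]
      rw [Complex.exp_eq_exp_iff_exists_int]
      refine ⟨-m, ?_⟩
      push_cast
      ring
    · simp only [hA, hi, if_false, sub_zero]
  obtain ⟨x, hx, y, hy, hxy⟩ := H A hAsum
  obtain ⟨a, ha, hadet⟩ := exists_phase x hx
  obtain ⟨b, hb, hbdet⟩ := exists_phase y hy
  have hVdet : V.det * (star V).det = 1 := by
    rw [← Matrix.det_mul, hV2, Matrix.det_one]
  refine ⟨V * (a • x) * star V, V * (b • y) * star V, ?_, ?_, ?_⟩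
  · rw [Matrix.mem_specialUnitaryGroup_iff]
    refine ⟨unitary_conj_mem V _ hV (smul_unitary_mem a x ha hx), ?_⟩
    rw [Matrix.det_mul, Matrix.det_mul, hadet, mul_one, hVdet]
  · rw [Matrix.mem_specialUnitaryGroup_iff]
    refine ⟨unitary_conj_mem V _ hV (smul_unitary_mem b y hb hy), ?_⟩
    rw [Matrix.det_mul, Matrix.det_mul, hbdet, mul_one, hVdet]
  · rw [swd_conj _ _ _ hV1, swd_smul _ _ _ _ ha hb, hxy]
    simp only [hAexp]
    exact hd.symm

end general

/-- The word map is onto for `n` coprime to 30 (index type `ZMod n`). -/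
theorem surj_zmod (n : ℕ) [NeZero n] (hn : Nat.Coprime n 30)
    (g : Matrix (ZMod n) (ZMod n) ℂ) (hg : g ∈ Matrix.specialUnitaryGroup (ZMod n) ℂ) :
    ∃ x y : Matrix (ZMod n) (ZMod n) ℂ, x ∈ Matrix.specialUnitaryGroup (ZMod n) ℂ ∧
      y ∈ Matrix.specialUnitaryGroup (ZMod n) ℂ ∧ swd x y = g := by
  have c2 : Nat.Coprime 2 n := Nat.Coprime.coprime_dvd_left (by norm_num : 2 ∣ 30) hn.symm
  obtain ⟨h, hh⟩ : ∃ h : ZMod n, 2 * h = 1 := by
    have hu : IsUnit ((2 : ℕ) : ZMod n) := (ZMod.isUnit_iff_coprime 2 n).mpr c2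
    obtain ⟨u, hu⟩ := hu
    refine ⟨(u⁻¹ : (ZMod n)ˣ), ?_⟩
    have : (u : ZMod n) * ((u⁻¹ : (ZMod n)ˣ) : ZMod n) = 1 := Units.mul_inv u
    rw [hu] at this
    simpa using this
  refine reduce_to_diagonal (fun A hA => ?_) g hg
  obtain ⟨X, hX⟩ := foxW_surjective hn h hh A hA
  refine ⟨mono X (dbl h hh), mono_mem _ _, mono (fun _ => 0) (shf n), mono_mem _ _, ?_⟩
  have := word_mono h hh X
  simp only [hX] at this
  exact this

end Pool.Agent.Lib.MP_88e1a1_al
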