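import Pool.Agent.Lib.MP_88e1a1_al.Cyc

/-! The clock, shift and chirp matrices, and the word map on them. -/

set_option autoImplicit false

namespace Pool.Agent.Lib.MP_88e1a1_al

open Finset Matrix

/-- The word expression, with inverses written as adjoints. -/
noncomputable def W {ι : Type*} [Fintype ι] [DecidableEq ι] (x y : Matrix ι ι ℂ) : Matrix ι ι ℂ :=
  (x * y * star x * star y) * (x ^ 2 * y ^ 2 * star (x ^ 2) * star (y ^ 2)) *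
    star (x * y * star x * star y) * star (x ^ 2 * y ^ 2 * star (x ^ 2) * star (y ^ 2))

section Group

open scoped commutatorElement

variable {G : Type*} [Group G]

/-- the word in a group -/
def wG (x y : G) : G := ⁅⁅x, y⁆, ⁅x ^ 2, y ^ 2⁆⁆

theorem comm_of_mul_eq {a b c : G} (h : a * b = c * b * a) : ⁅a, b⁆ = c := by
  rw [commutatorElement_def, h]; group

theorem word_id (Z b S z κ : G) (hZz : Z * z = z * Z) (hbS : S * b = b * S)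
    (h1 : Z * b = S * b * Z) (h2 : Z * S = κ * S * Z) (hκS : κ * S = S * κ) (hκb : κ * b = b * κ)
    (hκz : κ * z = z * κ) :
    wG Z (b * z) = (S ^ 2 * b) * ⁅S, z * S ^ 2 * z⁻¹⁆ * (S ^ 2 * b)⁻¹ := by
  have hP : ⁅Z, b * z⁆ = S := by
    apply comm_of_mul_eq
    calc Z * (b * z) = (Z * b) * z := by group
      _ = S * b * (Z * z) := by rw [h1]; group
      _ = S * (b * z) * Z := by rw [hZz]; group
  have hy1 : Z * (b * z) = S * (b * z) * Z := by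
    rw [commutatorElement_def] at hP
    calc Z * (b * z) = (Z * (b * z) * Z⁻¹ * (b * z)⁻¹) * (b * z) * Z := by group
      _ = S * (b * z) * Z := by rw [hP]
  have hκy : κ * (b * z) = (b * z) * κ := by
    rw [← mul_assoc, hκb, mul_assoc, hκz, mul_assoc]
  obtain ⟨y, hy⟩ : ∃ y, y = b * z := ⟨_, rfl⟩
  rw [← hy] at hP hy1 hκy ⊢
  have hZ2 : Z ^ 2 * y = κ * S ^ 2 * y * Z ^ 2 := by
    calc Z ^ 2 * y = Z * (Z * y) := by simp only [pow_two, mul_assoc]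
      _ = (Z * S) * y * Z := by rw [hy1]; simp only [mul_assoc]
      _ = κ * S * (Z * y) * Z := by rw [h2]; simp only [mul_assoc]
      _ = κ * S ^ 2 * y * Z ^ 2 := by rw [hy1]; simp only [pow_two, mul_assoc]
  have hQ : ⁅Z ^ 2, y ^ 2⁆ = (κ ^ 2) * (S ^ 2 * (y * S ^ 2 * y⁻¹)) := by
    apply comm_of_mul_eq
    have e1 : S ^ 2 * y * κ = κ * (S ^ 2 * y) := by
      have : S ^ 2 * κ = κ * S ^ 2 := by
        rw [pow_two, mul_assoc, ← hκS, ← mul_assoc, ← hκS, mul_assoc]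
      rw [mul_assoc, ← hκy, ← mul_assoc, this, mul_assoc]
    have e2 : (κ ^ 2) * (S ^ 2 * (y * S ^ 2 * y⁻¹)) * y ^ 2 * Z ^ 2
        = κ ^ 2 * S ^ 2 * y * S ^ 2 * y * Z ^ 2 := by
      simp only [pow_two, mul_assoc, inv_mul_cancel_left]
    calc Z ^ 2 * y ^ 2 = (Z ^ 2 * y) * y := by simp only [pow_two, mul_assoc]
      _ = (κ * S ^ 2 * y * Z ^ 2) * y := by rw [hZ2]
      _ = κ * S ^ 2 * y * (Z ^ 2 * y) := by simp only [mul_assoc]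
      _ = κ * S ^ 2 * y * (κ * S ^ 2 * y * Z ^ 2) := by rw [hZ2]
      _ = κ * (S ^ 2 * y * κ) * S ^ 2 * y * Z ^ 2 := by simp only [mul_assoc]
      _ = κ * (κ * (S ^ 2 * y)) * S ^ 2 * y * Z ^ 2 := by rw [e1]
      _ = κ ^ 2 * S ^ 2 * y * S ^ 2 * y * Z ^ 2 := by simp only [pow_two, mul_assoc]
      _ = (κ ^ 2) * (S ^ 2 * (y * S ^ 2 * y⁻¹)) * y ^ 2 * Z ^ 2 := e2.symm
  have hκ2 : ∀ g : G, κ * g = g * κ → κ ^ 2 * g = g * κ ^ 2 := by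
    intro g hg
    rw [pow_two, mul_assoc, hg, ← mul_assoc, hg, mul_assoc]
  have hκV : κ ^ 2 * (S ^ 2 * (y * S ^ 2 * y⁻¹)) = (S ^ 2 * (y * S ^ 2 * y⁻¹)) * κ ^ 2 := by
    have c1 : Commute κ S := hκS
    have c2 : Commute κ y := hκy
    exact ((c1.pow_right 2).mul_right ((c2.mul_right (c1.pow_right 2)).mul_right
      c2.inv_right)).pow_left 2
  have hyy : y * S ^ 2 * y⁻¹ = b * (z * S ^ 2 * z⁻¹) * b⁻¹ := by rw [hy]; group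
  rw [wG, hP, hQ]
  have hkS : κ ^ 2 * S = S * κ ^ 2 := hκ2 S hκS
  rw [commutatorElement_def]
  obtain ⟨M, hM⟩ : ∃ M, M = z * S ^ 2 * z⁻¹ := ⟨_, rfl⟩
  rw [← hM] at hyy ⊢
  rw [hyy] at hκV ⊢
  calc S * (κ ^ 2 * (S ^ 2 * (b * M * b⁻¹))) * S⁻¹ * (κ ^ 2 * (S ^ 2 * (b * M * b⁻¹)))⁻¹
      = (S * κ ^ 2) * (S ^ 2 * (b * M * b⁻¹)) * S⁻¹ * (κ ^ 2 * (S ^ 2 * (b * M * b⁻¹)))⁻¹ := by
        group
    _ = (κ ^ 2 * S) * (S ^ 2 * (b * M * b⁻¹)) * S⁻¹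
          * ((S ^ 2 * (b * M * b⁻¹)) * κ ^ 2)⁻¹ := by rw [hkS, hκV]
    _ = κ ^ 2 * (S * (S ^ 2 * (b * M * b⁻¹)) * S⁻¹ * (S ^ 2 * (b * M * b⁻¹) * κ ^ 2)⁻¹) := by
        group
    _ = κ ^ 2 * (S * (S ^ 2 * (b * M * b⁻¹)) * S⁻¹ * (κ ^ 2)⁻¹ * (S ^ 2 * (b * M * b⁻¹))⁻¹) := by
        group
    _ = S * (S ^ 2 * (b * M * b⁻¹)) * S⁻¹ * (S ^ 2 * (b * M * b⁻¹))⁻¹ := by
        have c1 : Commute (κ ^ 2) (S * (S ^ 2 * (b * M * b⁻¹)) * S⁻¹) := by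
          have a1 : Commute (κ ^ 2) S := hkS
          have a2 : Commute (κ ^ 2) (S ^ 2 * (b * M * b⁻¹)) := hκV
          exact (a1.mul_right a2).mul_right a1.inv_right
        have := c1.eq
        calc κ ^ 2 * (S * (S ^ 2 * (b * M * b⁻¹)) * S⁻¹ * (κ ^ 2)⁻¹ * (S ^ 2 * (b * M * b⁻¹))⁻¹)
            = (κ ^ 2 * (S * (S ^ 2 * (b * M * b⁻¹)) * S⁻¹)) * (κ ^ 2)⁻¹
                * (S ^ 2 * (b * M * b⁻¹))⁻¹ := by group
          _ = _ := by rw [this]; group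
    _ = S ^ 2 * (S * b) * M * (b⁻¹ * S⁻¹) * b * M⁻¹ * b⁻¹ * (S ^ 2)⁻¹ := by group
    _ = S ^ 2 * (b * S) * M * (b⁻¹ * S⁻¹) * b * M⁻¹ * b⁻¹ * (S ^ 2)⁻¹ := by rw [hbS]
    _ = S ^ 2 * (b * S) * M * (S * b)⁻¹ * b * M⁻¹ * b⁻¹ * (S ^ 2)⁻¹ := by group
    _ = S ^ 2 * (b * S) * M * (b * S)⁻¹ * b * M⁻¹ * b⁻¹ * (S ^ 2)⁻¹ := by rw [hbS]
    _ = S ^ 2 * b * (S * M * S⁻¹ * M⁻¹) * (S ^ 2 * b)⁻¹ := by group

end Group

end Pool.Agent.Lib.MP_88e1a1_al
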