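import Mathlib

/-! Cyclic sums on `ZMod n` with values in the circle, and monomial matrices with a cyclic shift. -/

set_option autoImplicit false

namespace Pool.Agent.Lib.MP_88e1a1_al

open Finset

/-- Every element of the circle has an `n`-th root in the circle. -/
theorem circle_root (n : ℕ) (hn : n ≠ 0) (u : Circle) : ∃ c : Circle, c ^ n = u := by
  refine ⟨Circle.exp (Complex.arg (u : ℂ) / n), ?_⟩
  have h1 : Circle.exp (Complex.arg (u : ℂ) / n) ^ n
      = Circle.exp (n * (Complex.arg (u : ℂ) / n)) := by
    apply Circle.ext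
    simp only [Circle.coe_pow, Circle.coe_exp]
    rw [← Complex.exp_nat_mul]
    congr 1
    push_cast
    ring
  rw [h1, mul_div_cancel₀ _ (by exact_mod_cast hn)]
  exact Circle.exp_arg u

theorem cyc_sum (n : ℕ) [NeZero n] (f : ZMod n → Circle) (hf : ∏ i, f i = 1) :
    ∃ g : ZMod n → Circle, (∀ k, g k = g (k - 1) * f k) ∧ ∏ i, g i = 1 := by
  classical
  obtain ⟨m, rfl⟩ : ∃ m, n = m + 1 := ⟨n - 1, by have := NeZero.ne n; omega⟩
  set g0 : ZMod (m + 1) → Circle := fun k => ∏ i ∈ range (k.val + 1), f (i : ZMod (m + 1)) with hg0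
  have hstep : ∀ k, g0 k = g0 (k - 1) * f k := by
    intro k
    by_cases hk : k = 0
    · subst hk
      have h1 : (0 - 1 : ZMod (m + 1)).val = m := by
        rw [zero_sub, ZMod.val_neg_one]
      have h2 : g0 (0 - 1) = 1 := by
        simp only [hg0, h1]
        rw [← hf]
        rw [Finset.prod_range]
        apply Finset.prod_congr rfl
        intro i _
        congr 1
        exact Fin.cast_val_eq_self i
      rw [h2, one_mul]
      simp [hg0]
    · have h1 : (k - 1).val + 1 = k.val := by
        have hk1 : 1 ≤ k.val := by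
          rcases Nat.eq_zero_or_pos k.val with h | h
          · exact absurd ((ZMod.val_eq_zero k).1 h) hk
          · exact h
        have : (k - 1).val = k.val - 1 := by
          rcases Nat.eq_zero_or_pos m with hm | hm
          · subst hm
            have : k.val < 1 := ZMod.val_lt k
            omega
          · have : Fact (1 < m + 1) := ⟨by omega⟩
            rw [ZMod.val_sub (by rw [ZMod.val_one]; exact hk1), ZMod.val_one]
        omega
      simp only [hg0, h1]
      rw [Finset.prod_range_succ]
      congr 1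
      rw [ZMod.natCast_zmod_val]
  obtain ⟨c, hc⟩ := circle_root (m + 1) (by omega) (∏ i, g0 i)⁻¹
  refine ⟨fun k => c * g0 k, ?_, ?_⟩
  · intro k
    simp only
    rw [hstep k, mul_assoc]
  · rw [Finset.prod_mul_distrib, Finset.prod_const, Finset.card_univ, ZMod.card, hc]
    simp

theorem solve_diag (n : ℕ) [NeZero n] (hn : Odd n) (d : ZMod n → Circle) (hd : ∏ i, d i = 1) :
    ∃ z : ZMod n → Circle, ∀ i, d i = (z (i - 1) / z (i - 1 - 2)) / (z i / z (i - 2)) := by
  obtain ⟨c, hc, hc1⟩ := cyc_sum n (fun i => (d i)⁻¹) (by simp [hd])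
  obtain ⟨m, hm⟩ := hn
  set h : ZMod n := ((m + 1 : ℕ) : ZMod n) with hh
  have h2 : 2 * h = 1 := by
    have : ((2 * (m + 1) : ℕ) : ZMod n) = 1 := by
      have : 2 * (m + 1) = n + 1 := by omega
      rw [this]; simp
    rw [hh]; push_cast at this ⊢; linear_combination this
  have hbij : Function.Bijective (fun j : ZMod n => 2 * j) := by
    rw [Function.bijective_iff_has_inverse]
    refine ⟨fun j => h * j, fun j => ?_, fun j => ?_⟩
    · simp only; linear_combination j * h2
    · simp only; linear_combination j * h2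
  have hs1 : ∏ j, c (2 * j) = 1 := by
    rw [← hc1]
    exact Function.Bijective.prod_comp hbij (fun i => c i)
  obtain ⟨g, hg, -⟩ := cyc_sum n (fun j => c (2 * j)) hs1
  have hz : ∀ i, c i = g (h * i) / g (h * (i - 2)) := by
    intro i
    have h3 : h * (i - 2) = h * i - 1 := by linear_combination -h2
    rw [h3, hg (h * i)]
    have h4 : 2 * (h * i) = i := by linear_combination i * h2
    rw [h4]
    simp
  refine ⟨fun i => g (h * i), fun i => ?_⟩
  rw [← hz (i - 1), ← hz i, hc i]
  simp

end Pool.Agent.Lib.MP_88e1a1_al
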