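import Pool.Agent.Lib.MP_88e1a1_al.Mats

/-! Unitary diagonalisation of unitary matrices (Cayley transform), transport of the word map. -/

set_option autoImplicit false

namespace Pool.Agent.Lib.MP_88e1a1_al

open Finset Matrix
open scoped commutatorElement

section Diag

variable {ι : Type*} [Fintype ι] [DecidableEq ι]

/-- there is a point of the circle that is not an eigenvalue -/
theorem exists_not_eigen (g : Matrix ι ι ℂ) : ∃ u : Circle, IsUnit (1 - (u : ℂ) • g) := by
  by_contra hcon
  push Not at hcon
  have hroot : ∀ u : Circle, (Matrix.charpoly g).IsRoot ((u : ℂ)⁻¹) := by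
    intro u
    have h := hcon u
    rw [Matrix.isUnit_iff_isUnit_det, isUnit_iff_ne_zero, not_not] at h
    rw [Polynomial.IsRoot.def, Matrix.eval_charpoly]
    have hu : (u : ℂ) ≠ 0 := Circle.coe_ne_zero u
    have : (Matrix.scalar ι ((u : ℂ)⁻¹) - g) = (u : ℂ)⁻¹ • (1 - (u : ℂ) • g) := by
      rw [smul_sub, smul_smul, inv_mul_cancel₀ hu, one_smul]
      congr 1
      ext i j
      simp [Matrix.scalar_apply, Matrix.one_apply, Matrix.diagonal_apply]
    rw [this, Matrix.det_smul, h, mul_zero]
  have hfin : (g.charpoly.roots.toFinset : Set ℂ).Finite := Finset.finite_toSet _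
  have hsub : Set.range (fun u : Circle => ((u : ℂ)⁻¹)) ⊆ (g.charpoly.roots.toFinset : Set ℂ) := by
    rintro _ ⟨u, rfl⟩
    simp only [Finset.mem_coe, Multiset.mem_toFinset]
    rw [Polynomial.mem_roots (Matrix.charpoly_monic g).ne_zero]
    exact hroot u
  have hinf : (Set.range (fun u : Circle => ((u : ℂ)⁻¹))).Infinite := by
    have : Infinite Circle := by
      have : Function.Injective (fun n : ℕ => Circle.exp ((1 : ℝ) / (n + 1))) := by
        intro a b hab
        simp only at hab
        have h1 : ∀ m : ℕ, (1 : ℝ) / (m + 1) ∈ Set.Ioc (-Real.pi) Real.pi := by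
          intro m
          have hpos : (0 : ℝ) < (m : ℝ) + 1 := by positivity
          constructor
          · have : (0 : ℝ) < 1 / (m + 1) := by positivity
            have := Real.pi_pos
            linarith
          · have : (1 : ℝ) / (m + 1) ≤ 1 := by
              rw [div_le_one hpos]; linarith [Nat.cast_nonneg (α := ℝ) m]
            have := Real.pi_gt_three
            linarith
        have h2 := congrArg (fun u : Circle => Complex.arg (u : ℂ)) hab
        rw [Circle.arg_exp (h1 a).1 (h1 a).2, Circle.arg_exp (h1 b).1 (h1 b).2] at h2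
        have ha : (0 : ℝ) < (a : ℝ) + 1 := by positivity
        have hb : (0 : ℝ) < (b : ℝ) + 1 := by positivity
        rw [div_eq_div_iff ha.ne' hb.ne'] at h2
        have : (b : ℝ) = a := by linarith
        exact_mod_cast this.symm
      exact Infinite.of_injective _ this
    apply Set.infinite_range_of_injective
    intro a b hab
    exact Circle.ext (inv_injective hab)
  exact hinf (hfin.subset hsub)

/-- unitary matrices are unitarily diagonalisable -/
theorem unitary_diag (g : Matrix ι ι ℂ) (hg : g ∈ unitaryGroup ι ℂ) :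
    ∃ U ∈ unitaryGroup ι ℂ, ∃ d : ι → Circle,
      g = U * diagonal (fun i => (d i : ℂ)) * star U := by
  obtain ⟨u, hu⟩ := exists_not_eigen g
  set g' := (u : ℂ) • g with hg'
  have hcu : star (u : ℂ) * (u : ℂ) = 1 := by
    have := Circle.coe_inv_eq_conj u
    rw [show star (u : ℂ) = (starRingEnd ℂ) (u : ℂ) from rfl, ← this, ← Circle.coe_mul,
      inv_mul_cancel, Circle.coe_one]
  have hgs : g' * star g' = 1 := by
    rw [hg', star_smul, smul_mul_smul_comm, mem_unitaryGroup_iff.1 hg, mul_comm, hcu, one_smul]
  have hgs' : star g' * g' = 1 := by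
    rw [hg', star_smul, smul_mul_smul_comm, mem_unitaryGroup_iff'.1 hg, hcu, one_smul]
  obtain ⟨R, hR1, hR2⟩ : ∃ R : Matrix ι ι ℂ, (1 - g') * R = 1 ∧ R * (1 - g') = 1 := by
    obtain ⟨v, hv⟩ := hu
    exact ⟨v⁻¹.1, by rw [← hv]; exact v.mul_inv, by rw [← hv]; exact v.inv_mul⟩
  set H : Matrix ι ι ℂ := Complex.I • ((1 + g') * R) with hH
  have hRs : star R * (1 - star g') = 1 := by
    rw [← star_one, ← star_sub, ← star_mul, hR1, star_one]
  have hHh : H.IsHermitian := by
    have e1 : star H = -Complex.I • (star R * (1 + star g')) := by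
      rw [hH, star_smul, star_mul, star_add, star_one]
      congr 1
      exact Complex.conj_I
    have e2 : (1 + star g') * (1 - g') = -((1 - star g') * (1 + g')) := by
      rw [add_mul, mul_sub, mul_sub, hgs', sub_mul, mul_add, mul_add, hgs']
      simp only [one_mul, mul_one]
      abel
    have e3 : star R * (1 + star g') = -((1 + g') * R) := by
      calc star R * (1 + star g') = star R * (1 + star g') * ((1 - g') * R) := by
            rw [hR1, mul_one]
        _ = star R * ((1 + star g') * (1 - g')) * R := by simp only [Matrix.mul_assoc]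
        _ = -((star R * (1 - star g')) * (1 + g') * R) := by
            rw [e2]; simp only [Matrix.mul_assoc, Matrix.mul_neg, Matrix.neg_mul]
        _ = -((1 + g') * R) := by rw [hRs, one_mul]
    change star H = H
    rw [e1, e3, hH, smul_neg, neg_smul, neg_neg]
  -- `H - i = g' (H + i)`
  have hHi : g' * (H + Complex.I • (1 : Matrix ι ι ℂ)) = H - Complex.I • (1 : Matrix ι ι ℂ) := by
    have e1 : H + Complex.I • (1 : Matrix ι ι ℂ) = (2 * Complex.I) • R := by
      rw [hH]
      nth_rewrite 2 [← hR1]
      rw [← smul_add, ← add_mul, mul_comm (2 : ℂ), mul_smul]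
      congr 1
      rw [show (1 + g' + (1 - g') : Matrix ι ι ℂ) = (2 : ℂ) • 1 by
        rw [two_smul]; abel, smul_mul_assoc, one_mul]
    have e2 : H - Complex.I • (1 : Matrix ι ι ℂ) = (2 * Complex.I) • (g' * R) := by
      rw [hH]
      nth_rewrite 2 [← hR1]
      rw [← smul_sub, ← sub_mul, mul_comm (2 : ℂ), mul_smul]
      congr 1
      rw [show (1 + g' - (1 - g') : Matrix ι ι ℂ) = (2 : ℂ) • g' by
        rw [two_smul]; abel, smul_mul_assoc]
    rw [e1, e2, mul_smul_comm]
  set V : Matrix ι ι ℂ := (hHh.eigenvectorUnitary : Matrix ι ι ℂ) with hV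
  have hVm : V ∈ unitaryGroup ι ℂ := hHh.eigenvectorUnitary.2
  have hVV : V * star V = 1 := mem_unitaryGroup_iff.1 hVm
  have hVV' : star V * V = 1 := mem_unitaryGroup_iff'.1 hVm
  have hspec : H = V * diagonal (fun i => ((hHh.eigenvalues i : ℝ) : ℂ)) * star V := by
    have := hHh.spectral_theorem
    rw [Unitary.conjStarAlgAut_apply] at this
    exact this
  set lam : ι → ℝ := hHh.eigenvalues with hlam
  have hne : ∀ i, ((lam i : ℝ) : ℂ) + Complex.I ≠ 0 := by
    intro i h
    have := congrArg Complex.im h
    simp at this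
  have hD : g' * V = V * diagonal (fun i => ((Circle.ofConjDivSelf _ (hne i) : Circle) : ℂ)) := by
    have e1 : H + Complex.I • (1 : Matrix ι ι ℂ)
        = V * diagonal (fun i => ((lam i : ℝ) : ℂ) + Complex.I) * star V := by
      have : diagonal (fun i => ((lam i : ℝ) : ℂ) + Complex.I)
          = diagonal (fun i => ((lam i : ℝ) : ℂ)) + Complex.I • (1 : Matrix ι ι ℂ) := by
        ext i j; by_cases h : i = j
        · subst h; simp
        · simp [h]
      rw [this, mul_add, add_mul, ← hspec, mul_smul_comm, mul_one, smul_mul_assoc, hVV]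
    have e2 : H - Complex.I • (1 : Matrix ι ι ℂ)
        = V * diagonal (fun i => ((lam i : ℝ) : ℂ) - Complex.I) * star V := by
      have : diagonal (fun i => ((lam i : ℝ) : ℂ) - Complex.I)
          = diagonal (fun i => ((lam i : ℝ) : ℂ)) - Complex.I • (1 : Matrix ι ι ℂ) := by
        ext i j; by_cases h : i = j
        · subst h; simp
        · simp [h]
      rw [this, mul_sub, sub_mul, ← hspec, mul_smul_comm, mul_one, smul_mul_assoc, hVV]
    have e3 : g' * V * diagonal (fun i => ((lam i : ℝ) : ℂ) + Complex.I)
        = V * diagonal (fun i => ((lam i : ℝ) : ℂ) - Complex.I) := by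
      calc g' * V * diagonal (fun i => ((lam i : ℝ) : ℂ) + Complex.I)
          = g' * (V * diagonal (fun i => ((lam i : ℝ) : ℂ) + Complex.I) * star V) * V := by
            simp only [Matrix.mul_assoc, hVV', mul_one]
        _ = (V * diagonal (fun i => ((lam i : ℝ) : ℂ) - Complex.I) * star V) * V := by
            rw [← e1, hHi, e2]
        _ = V * diagonal (fun i => ((lam i : ℝ) : ℂ) - Complex.I) := by
            simp only [Matrix.mul_assoc, hVV', mul_one]
    have e4 : diagonal (fun i => ((lam i : ℝ) : ℂ) + Complex.I)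
        * diagonal (fun i => (((lam i : ℝ) : ℂ) + Complex.I)⁻¹) = 1 := by
      rw [diagonal_mul_diagonal]
      rw [← diagonal_one]
      congr 1
      funext i
      exact mul_inv_cancel₀ (hne i)
    calc g' * V = g' * V * (diagonal (fun i => ((lam i : ℝ) : ℂ) + Complex.I)
        * diagonal (fun i => (((lam i : ℝ) : ℂ) + Complex.I)⁻¹)) := by rw [e4, mul_one]
      _ = (g' * V * diagonal (fun i => ((lam i : ℝ) : ℂ) + Complex.I))
        * diagonal (fun i => (((lam i : ℝ) : ℂ) + Complex.I)⁻¹) := by
          simp only [Matrix.mul_assoc]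
      _ = V * (diagonal (fun i => ((lam i : ℝ) : ℂ) - Complex.I)
        * diagonal (fun i => (((lam i : ℝ) : ℂ) + Complex.I)⁻¹)) := by
          rw [e3]; simp only [Matrix.mul_assoc]
      _ = _ := by
          rw [diagonal_mul_diagonal]
          congr 2
          funext i
          rw [← div_eq_mul_inv]
          change _ = (starRingEnd ℂ) (((lam i : ℝ) : ℂ) + Complex.I) / (((lam i : ℝ) : ℂ) + Complex.I)
          congr 1
          rw [map_add, Complex.conj_ofReal, Complex.conj_I, sub_eq_add_neg]
  refine ⟨V, hVm, fun i => u⁻¹ * Circle.ofConjDivSelf _ (hne i), ?_⟩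
  have hg1 : g = (u : ℂ)⁻¹ • g' := by
    rw [hg', smul_smul, inv_mul_cancel₀ (Circle.coe_ne_zero u), one_smul]
  have hg2 : g' = V * diagonal (fun i => ((Circle.ofConjDivSelf _ (hne i) : Circle) : ℂ))
      * star V := by
    rw [← hD, Matrix.mul_assoc, hVV, mul_one]
  rw [hg1, hg2]
  have : diagonal (fun i => ((u⁻¹ * Circle.ofConjDivSelf _ (hne i) : Circle) : ℂ))
      = (u : ℂ)⁻¹ • diagonal (fun i => ((Circle.ofConjDivSelf _ (hne i) : Circle) : ℂ)) := by
    rw [← diagonal_smul]
    congr 1
  rw [this, mul_smul_comm, smul_mul_assoc]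

end Diag

end Pool.Agent.Lib.MP_88e1a1_al
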