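import Pool.Agent.Lib.MP_88e1a1_al.Diag

/-! Transport of the word map: conjugation, reindexing, block sums, determinants. -/

set_option autoImplicit false

namespace Pool.Agent.Lib.MP_88e1a1_al

open Finset Matrix
open scoped commutatorElement

section Hit

variable {ι κ : Type*} [Fintype ι] [DecidableEq ι] [Fintype κ] [DecidableEq κ]

/-- `M` is a value of the word on the unitary group -/
def Hit (M : Matrix ι ι ℂ) : Prop :=
  ∃ x ∈ unitaryGroup ι ℂ, ∃ y ∈ unitaryGroup ι ℂ, W x y = M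

theorem W_coe (x y : unitaryGroup ι ℂ) : W x.1 y.1 = (wG x y).1 := by
  simp only [W, wG, commutatorElement_def, UnitaryGroup.mul_val, UnitaryGroup.inv_val,
    SubmonoidClass.coe_pow]

theorem wG_conj {G : Type*} [Group G] (g x y : G) :
    wG (g * x * g⁻¹) (g * y * g⁻¹) = g * wG x y * g⁻¹ := by
  have h : ∀ u, g * u * g⁻¹ = (MulAut.conj g).toMonoidHom u := fun u => rfl
  rw [h x, h y, h (wG x y)]
  unfold wG
  simp only [map_commutatorElement, map_pow]

theorem hit_of_group (x y g : unitaryGroup ι ℂ) (M : unitaryGroup ι ℂ)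
    (h : wG x y = g * M * g⁻¹) : Hit M.1 := by
  refine ⟨(g⁻¹ * x * g⁻¹⁻¹).1, (g⁻¹ * x * g⁻¹⁻¹).2, (g⁻¹ * y * g⁻¹⁻¹).1, (g⁻¹ * y * g⁻¹⁻¹).2, ?_⟩
  rw [W_coe, wG_conj, h]
  congr 1
  rw [inv_inv, mul_assoc, mul_assoc, mul_assoc, inv_mul_cancel, mul_one, inv_mul_cancel_left]

theorem hit_conj {M : Matrix ι ι ℂ} (hM : Hit M) {g : Matrix ι ι ℂ} (hg : g ∈ unitaryGroup ι ℂ) :
    Hit (g * M * star g) := by
  obtain ⟨x, hx, y, hy, rfl⟩ := hM
  set G : unitaryGroup ι ℂ := ⟨g, hg⟩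
  set X : unitaryGroup ι ℂ := ⟨x, hx⟩
  set Y : unitaryGroup ι ℂ := ⟨y, hy⟩
  refine ⟨(G * X * G⁻¹).1, (G * X * G⁻¹).2, (G * Y * G⁻¹).1, (G * Y * G⁻¹).2, ?_⟩
  rw [W_coe]
  have e : W x y = (wG X Y).1 := W_coe X Y
  rw [e, wG_conj]
  rfl

theorem hit_reindex {M : Matrix ι ι ℂ} (hM : Hit M) (e : κ ≃ ι) : Hit (M.submatrix e e) := by
  obtain ⟨x, hx, y, hy, rfl⟩ := hM
  have hmul : ∀ A B : Matrix ι ι ℂ, (A * B).submatrix e e = A.submatrix e e * B.submatrix e e :=
    fun A B => (submatrix_mul_equiv A B e e e).symm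
  have hstar : ∀ A : Matrix ι ι ℂ, (star A).submatrix e e = star (A.submatrix e e) := fun A => rfl
  have hmem : ∀ A ∈ unitaryGroup ι ℂ, A.submatrix e e ∈ unitaryGroup κ ℂ := by
    intro A hA
    rw [mem_unitaryGroup_iff] at hA ⊢
    rw [← hstar, ← hmul, hA, submatrix_one_equiv]
  refine ⟨_, hmem x hx, _, hmem y hy, ?_⟩
  simp only [W, pow_two]
  simp only [← hmul, ← hstar]

theorem hit_blocks {A : Matrix ι ι ℂ} {B : Matrix κ κ ℂ} (hA : Hit A) (hB : Hit B) :
    Hit (fromBlocks A 0 0 B) := by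
  obtain ⟨x, hx, y, hy, rfl⟩ := hA
  obtain ⟨x', hx', y', hy', rfl⟩ := hB
  have hmul : ∀ (A B : Matrix ι ι ℂ) (C D : Matrix κ κ ℂ),
      fromBlocks A 0 0 C * fromBlocks B 0 0 D = fromBlocks (A * B) 0 0 (C * D) := by
    intro A B C D
    rw [fromBlocks_multiply]; simp
  have hstar : ∀ (A : Matrix ι ι ℂ) (C : Matrix κ κ ℂ),
      star (fromBlocks A 0 0 C) = fromBlocks (star A) 0 0 (star C) := by
    intro A C
    rw [star_eq_conjTranspose, fromBlocks_conjTranspose]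
    simp [star_eq_conjTranspose]
  have hmem : ∀ A ∈ unitaryGroup ι ℂ, ∀ C ∈ unitaryGroup κ ℂ,
      fromBlocks A 0 0 C ∈ unitaryGroup (ι ⊕ κ) ℂ := by
    intro A hA C hC
    rw [mem_unitaryGroup_iff] at hA hC ⊢
    rw [hstar, hmul, hA, hC, fromBlocks_one]
  refine ⟨_, hmem x hx x' hx', _, hmem y hy y' hy', ?_⟩
  simp only [W, pow_two]
  simp only [hmul, hstar]

theorem W_smul (x y : Matrix ι ι ℂ) (a b : Circle) :
    W ((a : ℂ) • x) ((b : ℂ) • y) = W x y := by
  have ha : (a : ℂ) * star (a : ℂ) = 1 := by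
    rw [circle_mul_conj, div_self', Circle.coe_one]
  have hb : (b : ℂ) * star (b : ℂ) = 1 := by
    rw [circle_mul_conj, div_self', Circle.coe_one]
  have e1 : ((a : ℂ) • x) * ((b : ℂ) • y) * star ((a : ℂ) • x) * star ((b : ℂ) • y)
      = x * y * star x * star y := by
    rw [star_smul, star_smul]
    simp only [smul_mul_assoc, mul_smul_comm, smul_smul]
    rw [show star (b : ℂ) * (star (a : ℂ) * ((b : ℂ) * (a : ℂ)))
      = ((a : ℂ) * star (a : ℂ)) * ((b : ℂ) * star (b : ℂ)) by ring, ha, hb, one_mul, one_smul]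
  have e2 : ((a : ℂ) • x) ^ 2 * ((b : ℂ) • y) ^ 2 * star (((a : ℂ) • x) ^ 2)
      * star (((b : ℂ) • y) ^ 2) = x ^ 2 * y ^ 2 * star (x ^ 2) * star (y ^ 2) := by
    rw [smul_pow, smul_pow, star_smul, star_smul]
    simp only [smul_mul_assoc, mul_smul_comm, smul_smul]
    rw [show star ((b : ℂ) ^ 2) * (star ((a : ℂ) ^ 2) * ((b : ℂ) ^ 2 * (a : ℂ) ^ 2))
      = ((a : ℂ) * star (a : ℂ)) ^ 2 * ((b : ℂ) * star (b : ℂ)) ^ 2 by
        rw [star_pow, star_pow]; ring, ha, hb, one_pow, one_mul, one_smul]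
  unfold W
  rw [e1, e2]

theorem exists_su [Nonempty ι] {x : Matrix ι ι ℂ} (hx : x ∈ unitaryGroup ι ℂ) :
    ∃ a : Circle, (a : ℂ) • x ∈ specialUnitaryGroup ι ℂ := by
  have hdet : x.det ∈ unitary ℂ := det_of_mem_unitary hx
  have hne : x.det ≠ 0 := by
    intro h
    have := (Unitary.mem_iff.1 hdet).1
    rw [h] at this
    simp at this
  have hnorm : ‖x.det‖ = 1 := by
    have h1 := (Unitary.mem_iff.1 hdet).1
    have h2 := congrArg norm h1
    rw [norm_mul, norm_star, norm_one] at h2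
    nlinarith [norm_nonneg x.det]
  obtain ⟨w, hw⟩ : ∃ w : Circle, (w : ℂ) = x.det :=
    ⟨⟨x.det, (mem_sphere_zero_iff_norm.2 hnorm : x.det ∈ Metric.sphere (0 : ℂ) 1)⟩, rfl⟩
  obtain ⟨a, ha⟩ := circle_root (Fintype.card ι) Fintype.card_ne_zero w⁻¹
  refine ⟨a, ?_⟩
  rw [mem_specialUnitaryGroup_iff]
  have haa : (a : ℂ) * star (a : ℂ) = 1 := by
    rw [circle_mul_conj, div_self', Circle.coe_one]
  constructor
  · rw [mem_unitaryGroup_iff, star_smul, smul_mul_smul_comm, mem_unitaryGroup_iff.1 hx, haa,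
      one_smul]
  · rw [det_smul, ← Circle.coe_pow, ha, Circle.coe_inv, hw]
    exact inv_mul_cancel₀ hne

theorem hit_su [Nonempty ι] {M : Matrix ι ι ℂ} (hM : Hit M) :
    ∃ x ∈ specialUnitaryGroup ι ℂ, ∃ y ∈ specialUnitaryGroup ι ℂ, W x y = M := by
  obtain ⟨x, hx, y, hy, rfl⟩ := hM
  obtain ⟨a, ha⟩ := exists_su hx
  obtain ⟨b, hb⟩ := exists_su hy
  exact ⟨_, ha, _, hb, W_smul x y a b⟩

theorem hit_diagonal_odd (hodd : Odd (Fintype.card ι)) (d : ι → Circle) (hd : ∏ i, d i = 1) :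
    Hit (diagonal (fun i => (d i : ℂ))) := by
  have hpos : Fintype.card ι ≠ 0 := by
    rintro h; rw [h] at hodd; exact absurd hodd (by decide)
  have : NeZero (Fintype.card ι) := ⟨hpos⟩
  let e : ZMod (Fintype.card ι) ≃ ι := Fintype.equivOfCardEq (ZMod.card _)
  have hd' : ∏ i, d (e i) = 1 := by rw [← hd]; exact Equiv.prod_comp e d
  obtain ⟨x, y, g, h⟩ := hit_diag hodd (fun i => d (e i)) hd'
  have h1 := hit_of_group x y g _ h
  have h2 := hit_reindex h1 e.symm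
  convert h2 using 1
  change _ = (mono 0 _).submatrix _ _
  rw [mono_zero]
  ext i j
  simp only [submatrix_apply, diagonal_apply, EmbeddingLike.apply_eq_iff_eq, Equiv.apply_symm_apply]

theorem hit_diagonal_subset (heven : Even (Fintype.card ι)) (d : ι → Circle) (hd : ∏ i, d i = 1)
    (s : Finset ι) (hs : Odd s.card) (hds : ∏ i ∈ s, d i = 1) :
    Hit (diagonal (fun i => (d i : ℂ))) := by
  have h1 : Hit (diagonal (fun i : {i // i ∈ s} => (d i : ℂ))) := by
    apply hit_diagonal_odd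
    · rwa [Fintype.card_coe]
    · rw [← hds]; exact Finset.prod_coe_sort s d
  have hcompl : ∏ i ∈ sᶜ, d i = 1 := by
    have := Finset.prod_mul_prod_compl s d
    rw [hds, hd, one_mul] at this
    exact this
  have h2 : Hit (diagonal (fun i : {i // i ∉ s} => (d i : ℂ))) := by
    apply hit_diagonal_odd
    · rw [Fintype.card_subtype_compl, Fintype.card_coe]
      exact Nat.Even.sub_odd (Finset.card_le_univ s) heven hs
    · rw [← hcompl]
      exact (Finset.prod_subtype sᶜ (fun i => Finset.mem_compl) d).symm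
  have h3 := hit_reindex (hit_blocks h1 h2) (Equiv.sumCompl (fun i => i ∈ s)).symm
  convert h3 using 1
  rw [fromBlocks_diagonal]
  ext i j
  rw [submatrix_apply]
  by_cases hij : i = j
  · subst hij
    rw [diagonal_apply_eq, diagonal_apply_eq]
    by_cases hi : i ∈ s
    · rw [Equiv.sumCompl_symm_apply_of_pos hi]; rfl
    · rw [Equiv.sumCompl_symm_apply_of_neg hi]; rfl
  · rw [diagonal_apply_ne _ hij, diagonal_apply_ne]
    exact fun h => hij ((Equiv.sumCompl _).symm.injective h)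

end Hit

end Pool.Agent.Lib.MP_88e1a1_al
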