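import Pool.Agent.Lib.MP_88e1a1_al.Chirp

/-! Concrete matrices. -/

set_option autoImplicit false
set_option linter.unusedSectionVars false

namespace Pool.Agent.Lib.MP_88e1a1_al

open Finset Matrix
open scoped commutatorElement

section

variable {n : ℕ} [NeZero n]

/-- monomial matrix with cyclic shift by `k` and labels `a` -/
def mono (k : ZMod n) (a : ZMod n → ℂ) : Matrix (ZMod n) (ZMod n) ℂ :=
  Matrix.of fun i j => if i = j + k then a i else 0

theorem mono_apply (k : ZMod n) (a : ZMod n → ℂ) (i j : ZMod n) :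
    mono k a i j = if i = j + k then a i else 0 := rfl

theorem mono_mul (k l : ZMod n) (a b : ZMod n → ℂ) :
    mono k a * mono l b = mono (k + l) (fun i => a i * b (i - k)) := by
  ext i j
  rw [mul_apply]
  simp only [mono_apply]
  rw [Finset.sum_eq_single (i - k)]
  · have h1 : (i = i - k + k) := by ring
    rw [if_pos h1]
    by_cases h : i = j + (k + l)
    · rw [if_pos h, if_pos (by rw [h]; ring)]
    · rw [if_neg h, if_neg (by intro h'; apply h; linear_combination h'), mul_zero]
  · intro m _ hm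
    rw [if_neg (by intro h'; apply hm; rw [h']; ring), zero_mul]
  · intro h; exact absurd (Finset.mem_univ _) h

theorem star_mono (k : ZMod n) (a : ZMod n → ℂ) :
    star (mono k a) = mono (-k) (fun i => star (a (i + k))) := by
  ext i j
  rw [star_apply]
  simp only [mono_apply]
  by_cases h : i = j + -k
  · rw [if_pos h, if_pos (by rw [h]; ring)]
    congr 2
    rw [h]; ring
  · rw [if_neg h, if_neg (by intro h'; apply h; rw [h']; ring), star_zero]

theorem mono_zero_one : mono (0 : ZMod n) (fun _ => 1) = 1 := by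
  ext i j
  simp [mono_apply, Matrix.one_apply]

theorem mono_zero (a : ZMod n → ℂ) : mono (0 : ZMod n) a = diagonal a := by
  ext i j
  simp only [mono_apply, diagonal_apply, add_zero]

/-- labels in the circle give unitary monomial matrices -/
noncomputable def monoU (k : ZMod n) (a : ZMod n → Circle) : unitaryGroup (ZMod n) ℂ :=
  ⟨mono k (fun i => (a i : ℂ)), by
    rw [mem_unitaryGroup_iff, star_mono, mono_mul]
    rw [← mono_zero_one]
    congr 1
    · ring
    · funext i
      have : i - k + k = i := by ring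
      simp only [this]
      have h := Circle.coe_inv_eq_conj (a i)
      rw [show star ((a i : Circle) : ℂ) = (starRingEnd ℂ) (a i : ℂ) from rfl, ← h,
        ← Circle.coe_mul, mul_inv_cancel, Circle.coe_one]⟩

theorem monoU_mul (k l : ZMod n) (a b : ZMod n → Circle) :
    monoU k a * monoU l b = monoU (k + l) (fun i => a i * b (i - k)) := by
  apply Subtype.ext
  change mono k _ * mono l _ = mono (k + l) _
  rw [mono_mul]
  congr 1

theorem monoU_inv (k : ZMod n) (a : ZMod n → Circle) :
    (monoU k a)⁻¹ = monoU (-k) (fun i => (a (i + k))⁻¹) := by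
  apply Subtype.ext
  change star (mono k _) = mono (-k) _
  rw [star_mono]
  congr 1
  funext i
  rw [Circle.coe_inv_eq_conj]
  rfl

theorem comm_mono (z : ZMod n → Circle) :
    ⁅monoU (1 : ZMod n) 1, monoU 0 z * (monoU 1 1) ^ 2 * (monoU 0 z)⁻¹⁆
      = monoU 0 (fun i => (z (i - 1) / z (i - 1 - 2)) / (z i / z (i - 2))) := by
  rw [commutatorElement_def, pow_two]
  simp only [monoU_mul, monoU_inv]
  congr 1
  · ring
  · funext i
    simp only [Pi.one_apply, mul_one, one_mul, inv_one, neg_zero, add_zero, zero_add]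
    have e1 : i - 1 - (1 + 1) = i - 1 - 2 := by ring
    have e4 : i - (1 + (1 + 1) + -1) + (1 + 1) = i := by ring
    have e5 : i - (1 + 1) = i - 2 := by ring
    simp only [e1, e4, e5, div_eq_mul_inv]

theorem monoU_one : monoU (0 : ZMod n) 1 = 1 := by
  apply Subtype.ext
  change mono 0 _ = 1
  simpa using mono_zero_one (n := n)

/-- scalars -/
noncomputable def scal (u : Circle) : unitaryGroup (ZMod n) ℂ := monoU 0 (fun _ => u)

theorem scal_comm (u : Circle) (A : unitaryGroup (ZMod n) ℂ) : scal u * A = A * scal u := by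
  apply Subtype.ext
  change mono 0 _ * A.1 = A.1 * mono 0 _
  rw [mono_zero]
  ext i j
  rw [diagonal_mul, mul_diagonal, mul_comm]

/-- the quadratic exponent -/
def q (h u : ZMod n) : ZMod n := u * (u + 1) * h

/-- the circulant chirp matrix -/
noncomputable def chirp (h : ZMod n) : Matrix (ZMod n) (ZMod n) ℂ :=
  Matrix.of fun i j => ((Real.sqrt n)⁻¹ : ℂ) * (ZMod.toCircle (-(q h (i - j))) : ℂ)

theorem chirp_apply (h i j : ZMod n) :
    chirp h i j = ((Real.sqrt n)⁻¹ : ℂ) * (ZMod.toCircle (-(q h (i - j))) : ℂ) := rfl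

theorem circle_mul_conj (u v : Circle) : (u : ℂ) * star (v : ℂ) = ((u / v : Circle) : ℂ) := by
  rw [div_eq_mul_inv, Circle.coe_mul, Circle.coe_inv_eq_conj]; rfl

theorem chirp_unitary (h : ZMod n) (h2 : 2 * h = 1) : chirp h ∈ unitaryGroup (ZMod n) ℂ := by
  rw [mem_unitaryGroup_iff]
  ext i j
  rw [mul_apply]
  simp only [star_apply, chirp_apply, star_mul]
  have hn0 : (n : ℝ) ≠ 0 := by exact_mod_cast NeZero.ne n
  have hsq : ((Real.sqrt n)⁻¹ : ℂ) * star ((Real.sqrt n)⁻¹ : ℂ) = ((n : ℂ))⁻¹ := by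
    have : star ((Real.sqrt n)⁻¹ : ℂ) = ((Real.sqrt n)⁻¹ : ℂ) := by
      rw [← Complex.ofReal_inv]
      exact Complex.conj_ofReal _
    rw [this, ← mul_inv, ← Complex.ofReal_mul, Real.mul_self_sqrt (Nat.cast_nonneg n)]
    simp
  have key : ∀ k : ZMod n,
      ((Real.sqrt n)⁻¹ : ℂ) * (ZMod.toCircle (-(q h (i - k))) : ℂ) *
        (star (ZMod.toCircle (-(q h (j - k))) : ℂ) * star ((Real.sqrt n)⁻¹ : ℂ))
      = (n : ℂ)⁻¹ * (ZMod.toCircle (-(h * (i - j) * (i + j + 1))) : ℂ)
          * ZMod.stdAddChar (k * (i - j)) := by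
    intro k
    have e : (ZMod.toCircle (-(q h (i - k))) : ℂ) * star (ZMod.toCircle (-(q h (j - k))) : ℂ)
        = (ZMod.toCircle (-(h * (i - j) * (i + j + 1))) : ℂ) * ZMod.stdAddChar (k * (i - j)) := by
      rw [circle_mul_conj, ZMod.stdAddChar_apply, ← Circle.coe_mul, ← AddChar.map_sub_eq_div,
        ← AddChar.map_add_eq_mul]
      congr 2
      simp only [q]
      linear_combination (k * (i - j)) * h2
    rw [← hsq]
    linear_combination (((Real.sqrt n)⁻¹ : ℂ) * star ((Real.sqrt n)⁻¹ : ℂ)) * e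
  rw [Finset.sum_congr rfl (fun k _ => key k), ← Finset.mul_sum,
    AddChar.sum_mulShift _ (ZMod.isPrimitive_stdAddChar n)]
  by_cases hij : i = j
  · subst hij
    have hc : (n : ℂ) ≠ 0 := by exact_mod_cast NeZero.ne n
    simp [hc]
  · rw [if_neg (sub_ne_zero.2 hij), one_apply_ne hij]
    simp

/-- the chirp as a unitary -/
noncomputable def chirpU (h : ZMod n) (h2 : 2 * h = 1) : unitaryGroup (ZMod n) ℂ :=
  ⟨chirp h, chirp_unitary h h2⟩

theorem mono_one_mul (A : Matrix (ZMod n) (ZMod n) ℂ) (i j : ZMod n) :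
    (mono (1 : ZMod n) (fun _ => 1) * A) i j = A (i - 1) j := by
  rw [mul_apply, Finset.sum_eq_single (i - 1)]
  · rw [mono_apply, if_pos (by ring), one_mul]
  · intro m _ hm
    rw [mono_apply, if_neg (by intro h'; apply hm; rw [h']; ring), zero_mul]
  · intro h; exact absurd (Finset.mem_univ _) h

theorem mul_mono_one (A : Matrix (ZMod n) (ZMod n) ℂ) (i j : ZMod n) :
    (A * mono (1 : ZMod n) (fun _ => 1)) i j = A i (j + 1) := by
  rw [mul_apply, Finset.sum_eq_single (j + 1)]
  · rw [mono_apply, if_pos rfl, mul_one]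
  · intro m _ hm
    rw [mono_apply, if_neg hm, mul_zero]
  · intro h; exact absurd (Finset.mem_univ _) h

theorem shift_chirp (h : ZMod n) (h2 : 2 * h = 1) :
    monoU (1 : ZMod n) 1 * chirpU h h2 = chirpU h h2 * monoU (1 : ZMod n) 1 := by
  apply Subtype.ext
  change mono (1 : ZMod n) (fun _ => ((1 : Circle) : ℂ)) * chirp h
    = chirp h * mono (1 : ZMod n) (fun _ => ((1 : Circle) : ℂ))
  rw [Circle.coe_one]
  ext i j
  rw [mono_one_mul, mul_mono_one, chirp_apply, chirp_apply]
  congr 5
  ring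

theorem clock_chirp (h : ZMod n) (h2 : 2 * h = 1) :
    monoU (0 : ZMod n) (fun i => ZMod.toCircle i) * chirpU h h2
      = monoU (1 : ZMod n) 1 * chirpU h h2 * monoU (0 : ZMod n) (fun i => ZMod.toCircle i) := by
  apply Subtype.ext
  change mono (0 : ZMod n) (fun i => (ZMod.toCircle i : ℂ)) * chirp h
    = mono (1 : ZMod n) (fun _ => ((1 : Circle) : ℂ)) * chirp h
      * mono (0 : ZMod n) (fun i => (ZMod.toCircle i : ℂ))
  rw [Circle.coe_one, mono_zero]
  ext i j
  rw [diagonal_mul, mul_diagonal, mono_one_mul, chirp_apply, chirp_apply]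
  have e : (ZMod.toCircle i : ℂ) * (ZMod.toCircle (-(q h (i - j))) : ℂ)
      = (ZMod.toCircle (-(q h (i - 1 - j))) : ℂ) * (ZMod.toCircle j : ℂ) := by
    rw [← Circle.coe_mul, ← Circle.coe_mul, ← AddChar.map_add_eq_mul, ← AddChar.map_add_eq_mul]
    congr 2
    simp only [q]
    linear_combination -(i - j) * h2
  linear_combination ((Real.sqrt n)⁻¹ : ℂ) * e

theorem clock_shift :
    monoU (0 : ZMod n) (fun i => ZMod.toCircle i) * monoU (1 : ZMod n) 1
      = scal (ZMod.toCircle (1 : ZMod n)) * monoU (1 : ZMod n) 1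
        * monoU (0 : ZMod n) (fun i => ZMod.toCircle i) := by
  unfold scal
  simp only [monoU_mul]
  congr 1
  · ring
  · funext i
    simp only [Pi.one_apply, mul_one, ← AddChar.map_add_eq_mul]
    congr 1
    ring

theorem clock_diag (z : ZMod n → Circle) :
    monoU (0 : ZMod n) (fun i => ZMod.toCircle i) * monoU 0 z
      = monoU 0 z * monoU (0 : ZMod n) (fun i => ZMod.toCircle i) := by
  simp only [monoU_mul]
  congr 1
  funext i
  simp only [sub_zero]
  rw [mul_comm]

/-- every diagonal matrix of determinant one of odd size is a value of the word up to conjugacy -/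
theorem hit_diag (hn : Odd n) (d : ZMod n → Circle) (hd : ∏ i, d i = 1) :
    ∃ x y g : unitaryGroup (ZMod n) ℂ, wG x y = g * monoU 0 d * g⁻¹ := by
  obtain ⟨z, hz⟩ := solve_diag n hn d hd
  obtain ⟨m, hm⟩ := hn
  have h2 : 2 * ((m + 1 : ℕ) : ZMod n) = 1 := by
    have : ((2 * (m + 1) : ℕ) : ZMod n) = 1 := by
      have : 2 * (m + 1) = n + 1 := by omega
      rw [this]; simp
    push_cast at this ⊢; linear_combination this
  refine ⟨monoU (0 : ZMod n) (fun i => ZMod.toCircle i), chirpU _ h2 * monoU 0 z,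
    monoU 1 1 ^ 2 * chirpU _ h2, ?_⟩
  rw [word_id _ (chirpU _ h2) (monoU 1 1) (monoU 0 z) (scal (ZMod.toCircle (1 : ZMod n))) (clock_diag z)
    (shift_chirp _ h2) (clock_chirp _ h2) clock_shift (scal_comm _ _) (scal_comm _ _)
    (scal_comm _ _), comm_mono]
  congr 4
  funext i
  exact (hz i).symm

end

end Pool.Agent.Lib.MP_88e1a1_al
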